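import Pool.Agent.H76.FC.Defs

/-!
# Row DB: the substitutions `bl c` and `sw`

Monomials: bl c (x^i y^j) = x^(i+j) (y+c)^j,  sw (x^i y^j) = x^j y^i.

1. `cf_sw`, `sw_sw`, `sw_mem`: clear on monomials (use `MvPolynomial.induction_on` or `as_sum`; sw is `rename (Equiv.swap 0 1)`).
2. `cf_bl0`: the monomial x^a y^b in bl 0 f comes exactly from x^(a-b) y^b (b <= a).
3. `bl_dvd`: f in mI^k is a sum of c_s x^i y^j with i + j >= k, and bl c (x^i y^j) is divisible by x^(i+j).
4. `bl_quot_cf`: f in mI^k and bl c f = x^k g.  The part of bl c f which is not divisible by x^(k+1) is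
   sum_{i <= k} cf (k-i) i f * x^k (y+c)^i; so g(0,y) = sum_i cf (k-i) i f (y+c)^i, and the coefficient of y^j in (y+c)^i is
   choose i j * c^(i-j) (zero for j > i because choose is 0).
5. `bl_surj`: for n <= k+1 and every g there is f in mI^k and h with bl c f = x^k h and g - h in mI^n.
   Proof.  Modulo mI^n, g is a linear combination of x^i (y+c)^j with j < n (write y^j = ((y+c) - c)^j and expand; degrees in y
   stay < n; drop monomials of degree >= n first), and for j <= k: bl c (x^(k-j+i) y^j) = x^k * (x^i (y+c)^j), where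
   x^(k-j+i) y^j is in mI^k.  Linear combinations.
6. `cf_X0_mul`: cf (i+1) j (X 0 * f) = cf i j f, cf 0 j (X 0 * f) = 0.
7. `eval_zero_eq_cf`: eval 0 f = cf 0 0 f, and `mem_mI_iff`: f in mI iff cf 0 0 f = 0; `mem_mI2_iff`: f in mI^2 iff
   cf 0 0 f = 0, cf 1 0 f = 0, cf 0 1 f = 0.  `dvd_X0_iff`: X 0 divides f iff cf 0 j f = 0 for all j.
-/

open MvPolynomial

namespace FC76

theorem DB_u (u : Fin 2 →₀ ℕ) : u = Finsupp.single 0 (u 0) + Finsupp.single 1 (u 1) := by
  ext i
  fin_cases i <;> simp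

theorem DB_ueq (a b i j : ℕ) : (Finsupp.single (0 : Fin 2) a + Finsupp.single 1 b =
    Finsupp.single 0 i + Finsupp.single 1 j) ↔ (a = i ∧ b = j) := by
  constructor
  · intro h
    have h0 := DFunLike.congr_fun h 0
    have h1 := DFunLike.congr_fun h 1
    simp at h0 h1
    exact ⟨h0, h1⟩
  · rintro ⟨rfl, rfl⟩
    rfl

theorem DB_mon (a b : ℕ) (c : ℂ) : monomial (Finsupp.single (0 : Fin 2) a + Finsupp.single 1 b) c =
    (C c * X 0 ^ a * X 1 ^ b : P2) := by
  rw [monomial_add_single, ← C_mul_X_pow_eq_monomial]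

theorem DB_cfm (i j a b : ℕ) (c : ℂ) :
    cf i j (C c * X 0 ^ a * X 1 ^ b : P2) = if a = i ∧ b = j then c else 0 := by
  unfold cf
  rw [← DB_mon, coeff_monomial]
  simp only [DB_ueq]

theorem DB_add (i j : ℕ) (f g : P2) : cf i j (f + g) = cf i j f + cf i j g := by
  unfold cf
  rw [coeff_add]

theorem DB_sum {ι : Type*} (s : Finset ι) (i j : ℕ) (f : ι → P2) :
    cf i j (∑ t ∈ s, f t) = ∑ t ∈ s, cf i j (f t) := by
  unfold cf
  rw [coeff_sum]

theorem DB_ind {P : P2 → Prop} (h1 : ∀ (a b : ℕ) (c : ℂ), P (C c * X 0 ^ a * X 1 ^ b))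
    (h2 : ∀ p q, P p → P q → P (p + q)) (f : P2) : P f := by
  refine MvPolynomial.induction_on' f ?_ h2
  intro u a
  rw [DB_u u, DB_mon]
  exact h1 _ _ _

theorem DB_ext {f g : P2} (h : ∀ i j, cf i j f = cf i j g) : f = g := by
  refine MvPolynomial.ext _ _ fun u => ?_
  rw [DB_u u]
  exact h _ _

theorem DB_as_sum (f : P2) : f = ∑ u ∈ f.support, C (coeff u f) * X 0 ^ (u 0) * X 1 ^ (u 1) := by
  conv_lhs => rw [f.as_sum]
  refine Finset.sum_congr rfl fun u _ => ?_
  rw [← DB_mon, ← DB_u]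

theorem DB_mem (f : P2) (n : ℕ) : f ∈ mI ^ n ↔ ∀ i j, i + j < n → cf i j f = 0 := by
  rw [mem_pow_idealOfVars_iff']
  constructor
  · intro h i j hij
    refine h _ ?_
    rw [Finsupp.degree_eq_sum, Fin.sum_univ_two]
    simpa using hij
  · intro h u hu
    rw [DB_u u]
    refine h _ _ ?_
    rw [Finsupp.degree_eq_sum, Fin.sum_univ_two] at hu
    exact hu

theorem DB_swm (a b : ℕ) (c : ℂ) :
    sw (C c * X 0 ^ a * X 1 ^ b) = (C c * X 0 ^ b * X 1 ^ a : P2) := by
  simp only [sw, map_mul, map_pow, aeval_X, algHom_C, algebraMap_eq]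
  simp
  ring

theorem DB_blm (c r : ℂ) (a b : ℕ) :
    bl c (C r * X 0 ^ a * X 1 ^ b) = (C r * X 0 ^ (a + b) * (X 1 + C c) ^ b : P2) := by
  simp only [bl, map_mul, map_pow, aeval_X, algHom_C, algebraMap_eq]
  simp only [Matrix.cons_val_zero, Matrix.cons_val_one]
  rw [mul_pow, pow_add]
  ring

theorem cf_sw (i j : ℕ) (f : P2) : cf i j (sw f) = cf j i f := by
  induction f using DB_ind with
  | h1 a b c =>
    rw [DB_swm, DB_cfm, DB_cfm]
    simp only [and_comm]
  | h2 p q hp hq => rw [map_add, DB_add, DB_add, hp, hq]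

theorem sw_sw (f : P2) : sw (sw f) = f := by
  apply DB_ext
  intro i j
  rw [cf_sw, cf_sw]

theorem sw_mem (f : P2) (n : ℕ) (h : f ∈ mI ^ n) : sw f ∈ mI ^ n := by
  rw [DB_mem] at h ⊢
  intro i j hij
  rw [cf_sw]
  exact h _ _ (by omega)

theorem cf_bl0 (f : P2) (a b : ℕ) : cf a b (bl 0 f) = if b ≤ a then cf (a - b) b f else 0 := by
  induction f using DB_ind with
  | h1 i j c =>
    rw [DB_blm, C_0, add_zero, DB_cfm, DB_cfm]
    by_cases h1 : i + j = a ∧ j = b
    · rw [if_pos h1, if_pos (by omega), if_pos (by omega)]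
    · rw [if_neg h1]
      split_ifs with h2 h3
      · omega
      · rfl
      · rfl
  | h2 p q hp hq =>
    rw [map_add, DB_add, DB_add, hp, hq]
    split_ifs <;> simp

theorem bl_dvd (c : ℂ) (f : P2) (k : ℕ) (hf : f ∈ mI ^ k) : ∃ g, bl c f = X 0 ^ k * g := by
  show X 0 ^ k ∣ bl c f
  rw [DB_as_sum f, map_sum]
  refine Finset.dvd_sum fun u hu => ?_
  rw [DB_blm]
  have hk : k ≤ u 0 + u 1 := by
    by_contra hlt
    rw [DB_mem] at hf
    have h1 := hf (u 0) (u 1) (by omega)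
    unfold cf at h1
    rw [← DB_u u] at h1
    exact (mem_support_iff.1 hu) h1
  exact Dvd.dvd.mul_right (Dvd.dvd.mul_left (pow_dvd_pow _ hk) _) _

theorem DB_expand (r c : ℂ) (m b : ℕ) : (C r * X 0 ^ m * (X 1 + C c) ^ b : P2) =
    ∑ l ∈ Finset.range (b + 1), C (r * c ^ (b - l) * (Nat.choose b l : ℂ)) * X 0 ^ m * X 1 ^ l := by
  rw [add_pow, Finset.mul_sum]
  refine Finset.sum_congr rfl fun l _ => ?_
  simp only [map_mul, map_pow, map_natCast]
  ring

theorem DB_cfbl (r c : ℂ) (m b i j : ℕ) : cf i j (C r * X 0 ^ m * (X 1 + C c) ^ b : P2) =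
    if m = i then r * c ^ (b - j) * (Nat.choose b j : ℂ) else 0 := by
  rw [DB_expand, DB_sum]
  simp only [DB_cfm]
  split_ifs with h
  · by_cases hj : j < b + 1
    · rw [Finset.sum_eq_single_of_mem j (Finset.mem_range.2 hj)]
      · rw [if_pos ⟨h, rfl⟩]
      · intro l _ hl
        rw [if_neg (fun h' => hl h'.2)]
    · rw [Nat.choose_eq_zero_of_lt (by omega), Nat.cast_zero, mul_zero]
      refine Finset.sum_eq_zero fun l hl => ?_
      rw [Finset.mem_range] at hl
      rw [if_neg (fun h' => by omega)]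
  · refine Finset.sum_eq_zero fun l _ => ?_
    rw [if_neg (fun h' => h h'.1)]

theorem DB_cfk (c : ℂ) (f : P2) (k j : ℕ) : cf k j (bl c f) =
    ∑ i ∈ Finset.range (k + 1), cf (k - i) i f * (Nat.choose i j : ℂ) * c ^ (i - j) := by
  induction f using DB_ind with
  | h1 a b r =>
    rw [DB_blm, DB_cfbl]
    simp only [DB_cfm]
    split_ifs with h
    · rw [Finset.sum_eq_single_of_mem b (Finset.mem_range.2 (by omega))]
      · rw [if_pos ⟨by omega, rfl⟩]
        ring
      · intro l _ hl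
        rw [if_neg (fun h' => hl h'.2.symm)]
        ring
    · symm
      refine Finset.sum_eq_zero fun l hl => ?_
      rw [Finset.mem_range] at hl
      rw [if_neg (fun h' => by omega)]
      ring
  | h2 p q hp hq =>
    rw [map_add, DB_add, hp, hq, ← Finset.sum_add_distrib]
    refine Finset.sum_congr rfl fun l _ => ?_
    rw [DB_add]
    ring

theorem DB_shift (k i j : ℕ) (f : P2) : cf (i + k) j (X 0 ^ k * f) = cf i j f := by
  induction f using DB_ind with
  | h1 a b r =>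
    have e : (X 0 ^ k * (C r * X 0 ^ a * X 1 ^ b) : P2) = C r * X 0 ^ (a + k) * X 1 ^ b := by ring
    rw [e, DB_cfm, DB_cfm]
    simp only [Nat.add_right_cancel_iff]
  | h2 p q hp hq => rw [mul_add, DB_add, DB_add, hp, hq]

theorem bl_quot_cf (c : ℂ) (f g : P2) (k : ℕ) (hf : f ∈ mI ^ k) (hg : bl c f = X 0 ^ k * g) (j : ℕ) :
    cf 0 j g = ∑ i ∈ Finset.range (k + 1), cf (k - i) i f * (Nat.choose i j : ℂ) * c ^ (i - j) := by
  rw [← DB_cfk, hg]
  have h := DB_shift k 0 j g
  rw [zero_add] at h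
  exact h.symm

theorem bl_surj (c : ℂ) (k n : ℕ) (hn : n ≤ k + 1) (g : P2) :
    ∃ f ∈ (mI ^ k : Ideal P2), ∃ h, bl c f = X 0 ^ k * h ∧ g - h ∈ mI ^ n := by
  induction g using DB_ind with
  | h1 i j r =>
    by_cases hij : n ≤ i + j
    · refine ⟨0, Ideal.zero_mem _, 0, by simp, ?_⟩
      rw [sub_zero, DB_mem]
      intro a b hab
      rw [DB_cfm, if_neg (fun h' => by omega)]
    · have hjk : j ≤ k := by omega
      refine ⟨∑ l ∈ Finset.range (j + 1),
        C (r * (-c) ^ (j - l) * (Nat.choose j l : ℂ)) * X 0 ^ (k - l + i) * X 1 ^ l, ?_,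
        C r * X 0 ^ i * X 1 ^ j, ?_, ?_⟩
      · refine Ideal.sum_mem _ fun l hl => ?_
        rw [Finset.mem_range] at hl
        rw [DB_mem]
        intro a b hab
        rw [DB_cfm, if_neg (fun h' => by omega)]
      · rw [map_sum]
        have e1 : ∀ l ∈ Finset.range (j + 1),
            bl c (C (r * (-c) ^ (j - l) * (Nat.choose j l : ℂ)) * X 0 ^ (k - l + i) * X 1 ^ l) =
            X 0 ^ k * (C r * X 0 ^ i * ((X 1 + C c) ^ l * (-C c) ^ (j - l) *
              (Nat.choose j l : P2))) := by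
          intro l hl
          rw [Finset.mem_range] at hl
          rw [DB_blm]
          have e2 : k - l + i + l = k + i := by omega
          rw [e2]
          simp only [map_mul, map_pow, map_natCast, map_neg]
          ring
        rw [Finset.sum_congr rfl e1, ← Finset.mul_sum, ← Finset.mul_sum, ← add_pow]
        congr 2
        ring
      · rw [sub_self]
        exact Ideal.zero_mem _
  | h2 p q hp hq =>
    obtain ⟨f1, m1, h1, e1, d1⟩ := hp
    obtain ⟨f2, m2, h2, e2, d2⟩ := hq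
    refine ⟨f1 + f2, Ideal.add_mem _ m1 m2, h1 + h2, ?_, ?_⟩
    · rw [map_add, e1, e2]
      ring
    · have e : p + q - (h1 + h2) = (p - h1) + (q - h2) := by ring
      rw [e]
      exact Ideal.add_mem _ d1 d2

theorem cf_X0_mul (i j : ℕ) (f : P2) : cf (i + 1) j (X 0 * f) = cf i j f := by
  have h := DB_shift 1 i j f
  rwa [pow_one] at h

theorem cf_zero_X0_mul (j : ℕ) (f : P2) : cf 0 j (X 0 * f) = 0 := by
  induction f using DB_ind with
  | h1 a b r =>
    have e : (X 0 * (C r * X 0 ^ a * X 1 ^ b) : P2) = C r * X 0 ^ (a + 1) * X 1 ^ b := by ring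
    rw [e, DB_cfm, if_neg (fun h' => by omega)]
  | h2 p q hp hq => rw [mul_add, DB_add, hp, hq, add_zero]

theorem eval_zero_eq_cf (f : P2) : eval 0 f = cf 0 0 f := by
  rw [MvPolynomial.eval_zero]
  unfold cf
  simp [constantCoeff_eq]

theorem mem_mI_iff (f : P2) : f ∈ mI ^ 1 ↔ cf 0 0 f = 0 := by
  rw [DB_mem]
  constructor
  · intro h
    exact h 0 0 (by norm_num)
  · intro h i j hij
    have hi : i = 0 := by omega
    have hj : j = 0 := by omega
    rw [hi, hj]
    exact h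

theorem mem_mI2_iff (f : P2) : f ∈ mI ^ 2 ↔ cf 0 0 f = 0 ∧ cf 1 0 f = 0 ∧ cf 0 1 f = 0 := by
  rw [DB_mem]
  constructor
  · intro h
    exact ⟨h 0 0 (by norm_num), h 1 0 (by norm_num), h 0 1 (by norm_num)⟩
  · rintro ⟨h0, h1, h2⟩ i j hij
    have hc : (i = 0 ∧ j = 0) ∨ (i = 1 ∧ j = 0) ∨ (i = 0 ∧ j = 1) := by omega
    rcases hc with ⟨rfl, rfl⟩ | ⟨rfl, rfl⟩ | ⟨rfl, rfl⟩
    · exact h0
    · exact h1
    · exact h2

theorem dvd_X0_iff (f : P2) : X 0 ∣ f ↔ ∀ j, cf 0 j f = 0 := by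
  constructor
  · rintro ⟨g, rfl⟩ j
    exact cf_zero_X0_mul j g
  · intro h
    rw [DB_as_sum f]
    refine Finset.dvd_sum fun u hu => ?_
    have h0 : u 0 ≠ 0 := by
      intro h0
      have h1 := h (u 1)
      unfold cf at h1
      rw [← h0, ← DB_u u] at h1
      exact (mem_support_iff.1 hu) h1
    exact Dvd.dvd.mul_right (Dvd.dvd.mul_left (dvd_pow_self _ h0) _) _

end FC76
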