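import Pool.Agent.H76.FC.Defs

/-!
# Row DA: dimension of P2 / m^n and additivity of the order

1. `finrank_mPow`.  P2 / mI ^ n has the basis of the classes of the monomials x^i y^j with i + j < n, so its dimension is
   1 + 2 + ... + n = n (n+1) / 2.  Lean: the linear map f ↦ (coeff s f) for s in the finite set of exponents of degree < n,
   from P2 to (S → ℂ), is onto and its kernel is mI ^ n (`mem_pow_idealOfVars_iff'`); hence the quotient is linearly
   isomorphic to (S → ℂ) and finrank = card S; S is in bijection with {(i,j) : i + j < n}.  Finite dimensionality of the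
   quotients by ideals containing some mI ^ n follows (`fd_of_le`).

2. `order_mul`.  If f is not in mI^(a+1) and g is not in mI^(b+1) then f*g is not in mI^(a+b+1).
   Proof.  Let a' <= a be minimal with homogeneousComponent a' f ≠ 0 and b' <= b minimal with homogeneousComponent b' g ≠ 0
   (they exist by the coefficient criterion).  The homogeneous component of degree a'+b' of f*g is the product of these two
   nonzero polynomials (all lower components vanish), which is nonzero since P2 is a domain, so f*g has a nonzero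
   coefficient of degree a'+b' < a+b+1.  (Alternatively use `MvPolynomial` order of the associated power series:
   `MvPowerSeries.order_mul`, since coe is injective and degree-preserving.)

3. `mem_of_mul_mem`: if A is not in mI^(nu+1), nu <= j and c*A in mI^j then c in mI^(j-nu).  From 2 (if j - nu = 0 trivial).
-/

open MvPolynomial

namespace FC76

theorem DA_mem_iff (f : P2) (n : ℕ) :
    f ∈ mI ^ n ↔ (n : ℕ∞) ≤ (f : MvPowerSeries (Fin 2) ℂ).order := by
  rw [mem_pow_idealOfVars_iff']
  constructor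
  · intro h
    refine MvPowerSeries.le_order fun d hd => ?_
    rw [MvPolynomial.coeff_coe]
    exact h d (by exact_mod_cast hd)
  · intro h x hx
    rw [← MvPolynomial.coeff_coe]
    refine MvPowerSeries.coeff_of_lt_order (lt_of_lt_of_le ?_ h)
    exact_mod_cast hx

/-- exponents of degree less than `n` -/
abbrev DA_T (n : ℕ) : Type := {e : Fin 2 →₀ ℕ // e.degree < n}

theorem DA_degree (e : Fin 2 →₀ ℕ) : e.degree = e 0 + e 1 := by
  rw [Finsupp.degree_eq_sum, Fin.sum_univ_two]

/-- the exponents as pairs -/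
noncomputable def DA_equiv (n : ℕ) : DA_T n ≃ {p : ℕ × ℕ // p.1 + p.2 < n} :=
  (Finsupp.equivFunOnFinite.trans (finTwoArrowEquiv ℕ)).subtypeEquiv (by
    intro e
    rw [DA_degree]
    rfl)

/-- the finite set of the pairs -/
def DA_S (n : ℕ) : Finset (ℕ × ℕ) := (Finset.range n).biUnion fun d =>
  Finset.HasAntidiagonal.antidiagonal d

theorem DA_memS (n : ℕ) (x : ℕ × ℕ) : x ∈ DA_S n ↔ x.1 + x.2 < n := by
  unfold DA_S
  simp

theorem DA_cardS (n : ℕ) : (DA_S n).card = n * (n + 1) / 2 := by
  unfold DA_S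
  rw [Finset.card_biUnion]
  · simp only [Finset.Nat.card_antidiagonal]
    induction n with
    | zero => simp
    | succ n ih =>
      rw [Finset.sum_range_succ, ih]
      have h1 : (n + 1) * (n + 1 + 1) = n * (n + 1) + 2 * (n + 1) := by ring
      rw [h1, Nat.add_mul_div_left _ _ (by norm_num)]
  · intro a _ b _ hab
    rw [Function.onFun, Finset.disjoint_left]
    intro x hx hy
    rw [Finset.HasAntidiagonal.mem_antidiagonal] at hx hy
    exact hab (hx.symm.trans hy)

noncomputable instance DA_fin (n : ℕ) : Fintype (DA_T n) := by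
  have h : Finite (DA_T n) := by
    have h1 : Finite {p : ℕ × ℕ // p.1 + p.2 < n} := by
      have h2 : {p : ℕ × ℕ | p.1 + p.2 < n}.Finite := by
        refine (DA_S n).finite_toSet.subset ?_
        intro x hx
        exact (DA_memS n x).2 hx
      exact h2.to_subtype
    exact Finite.of_equiv _ (DA_equiv n).symm
  exact Fintype.ofFinite _

theorem DA_card (n : ℕ) : Fintype.card (DA_T n) = n * (n + 1) / 2 := by
  classical
  have h1 : Fintype {p : ℕ × ℕ // p.1 + p.2 < n} := Fintype.ofEquiv _ (DA_equiv n)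
  rw [Fintype.card_congr (DA_equiv n), Fintype.card_of_subtype (DA_S n) (DA_memS n), DA_cardS]

/-- the coefficients of degree less than `n` -/
noncomputable def DA_phi (n : ℕ) : P2 →ₗ[ℂ] (DA_T n → ℂ) :=
  LinearMap.pi fun e => MvPolynomial.lcoeff ℂ e.1

theorem DA_phi_apply (n : ℕ) (f : P2) (e : DA_T n) : DA_phi n f e = coeff e.1 f := rfl

theorem DA_surj (n : ℕ) : Function.Surjective (DA_phi n) := by
  classical
  intro v
  refine ⟨∑ e : DA_T n, monomial e.1 (v e), ?_⟩
  funext e
  rw [DA_phi_apply, coeff_sum]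
  simp only [coeff_monomial]
  rw [Finset.sum_eq_single e]
  · rw [if_pos rfl]
  · intro b _ hb
    rw [if_neg]
    intro h
    exact hb (Subtype.ext h)
  · intro h
    exact absurd (Finset.mem_univ e) h

theorem DA_ker (n : ℕ) : LinearMap.ker (DA_phi n) =
    LinearMap.ker (Ideal.Quotient.mkₐ ℂ (mI ^ n : Ideal P2)).toLinearMap := by
  ext f
  rw [LinearMap.mem_ker, LinearMap.mem_ker]
  have h1 : (Ideal.Quotient.mkₐ ℂ (mI ^ n : Ideal P2)).toLinearMap f = 0 ↔ f ∈ mI ^ n := by
    show Ideal.Quotient.mk (mI ^ n : Ideal P2) f = 0 ↔ _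
    exact Ideal.Quotient.eq_zero_iff_mem
  rw [h1, mem_pow_idealOfVars_iff']
  constructor
  · intro h x hx
    exact congrFun h ⟨x, hx⟩
  · intro h
    funext e
    exact h e.1 e.2

/-- the quotient by a power of the maximal ideal -/
noncomputable def DA_quot (n : ℕ) : (P2 ⧸ (mI ^ n : Ideal P2)) ≃ₗ[ℂ] (DA_T n → ℂ) :=
  ((LinearMap.quotKerEquivOfSurjective (Ideal.Quotient.mkₐ ℂ (mI ^ n : Ideal P2)).toLinearMap
    (Ideal.Quotient.mkₐ_surjective ℂ _)).symm.trans
    (Submodule.quotEquivOfEq _ _ (DA_ker n).symm)).trans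
    (LinearMap.quotKerEquivOfSurjective (DA_phi n) (DA_surj n))

theorem finrank_mPow (n : ℕ) : Module.finrank ℂ (P2 ⧸ (mI ^ n : Ideal P2)) = n * (n + 1) / 2 := by
  rw [(DA_quot n).finrank_eq, Module.finrank_fintype_fun_eq_card, DA_card]

/-- quotients by ideals containing a power of mI are finite dimensional -/
theorem fd_of_le (I : Ideal P2) (n : ℕ) (h : mI ^ n ≤ I) : FiniteDimensional ℂ (P2 ⧸ I) := by
  have h1 : Module.Finite ℂ (P2 ⧸ (mI ^ n : Ideal P2)) := Module.Finite.equiv (DA_quot n).symm
  exact Module.Finite.of_surjective (Ideal.Quotient.factorₐ ℂ h).toLinearMap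
    (Ideal.Quotient.factor_surjective h)

theorem order_mul (f g : P2) (a b : ℕ) (hf : f ∉ mI ^ (a + 1)) (hg : g ∉ mI ^ (b + 1)) :
    f * g ∉ mI ^ (a + b + 1) := by
  rw [DA_mem_iff, not_le] at hf hg ⊢
  rw [MvPolynomial.coe_mul, MvPowerSeries.order_mul]
  have h1 : (f : MvPowerSeries (Fin 2) ℂ).order ≤ a := by
    rw [Nat.cast_add, Nat.cast_one] at hf
    exact ENat.lt_add_one_iff (ENat.natCast_ne_top a) |>.1 hf
  have h2 : (g : MvPowerSeries (Fin 2) ℂ).order ≤ b := by
    rw [Nat.cast_add, Nat.cast_one] at hg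
    exact ENat.lt_add_one_iff (ENat.natCast_ne_top b) |>.1 hg
  refine lt_of_le_of_lt (add_le_add h1 h2) ?_
  have h3 : a + b < a + b + 1 := Nat.lt_succ_self _
  exact_mod_cast h3

theorem mem_of_mul_mem (A c : P2) (ν j : ℕ) (hA : A ∉ mI ^ (ν + 1)) (hj : ν ≤ j) (h : c * A ∈ mI ^ j) :
    c ∈ mI ^ (j - ν) := by
  rcases Nat.eq_zero_or_pos (j - ν) with h0 | h0
  · rw [h0, pow_zero, Ideal.one_eq_top]
    exact Submodule.mem_top
  · by_contra hc
    have e : j - ν = (j - ν - 1) + 1 := by omega
    rw [e] at hc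
    have h1 := order_mul c A _ _ hc hA
    have e2 : j - ν - 1 + ν + 1 = j := by omega
    rw [e2] at h1
    exact h1 h

end FC76
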