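import Pool.Agent.H76.FC.DA
import Pool.Agent.H76.FC.DB

/-!
# Row DC: first dimension inequality (restriction to the blow-up)

I' := (A', B') + m^n (in the chart, coordinates x, u with the point at the origin), J := m^(k-nu) (A,B) + m^(k+n).
Since A, B are in m^nu, J is contained in m^k, so  dim P2/J = dim P2/m^k + dim m^k/J.
Consider the map  m^k -> P2/I',  f ↦ class of g where bl c f = x^k g (`bl_dvd`; g is unique because P2 is a domain, so the
map is linear).  It is onto by `bl_surj` (mI^n ⊆ I').  It kills J: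
 * f = a*A with a in m^(k-nu): bl c a = x^(k-nu) a', so bl c f = x^k (a' * A') and g = a' A' in I'; same for B; m^(k-nu)*span{A,B}
   is generated by such products (`Submodule.mul_induction_on`, `Ideal.mem_span_pair`);
 * f in m^(k+n): bl c f = x^(k+n) g', so g = x^n g' in m^n.
Hence dim P2/I' <= dim m^k/J.   In Lean it is convenient to compare: the linear map Φ : (mI^k) →ₗ P2/I' has range ⊤ and kernel
containing the comap of J, so finrank (P2/I') <= finrank ((mI^k) / comap J), and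
finrank(P2/J) = finrank(P2/mI^k) + finrank(mI^k/comap J)  (`Submodule.finrank_quotient_add_finrank`, third isomorphism theorem,
or: rank-nullity for the map P2/J -> P2/mI^k whose kernel is the image of mI^k).  All spaces are finite dimensional (`fd_of_le`).
-/

open MvPolynomial

namespace FC76

/-- cancellation of the power of `x` -/
theorem DC_cancel (k : ℕ) {g h : P2} (e : (X 0 : P2) ^ k * g = X 0 ^ k * h) : g = h :=
  mul_left_cancel₀ (pow_ne_zero k (X_ne_zero 0)) e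

/-- linear algebra: comparison of the dimensions of two images of the same space -/
theorem DC_finrank_range {V W W' : Type*} [AddCommGroup V] [Module ℂ V] [AddCommGroup W] [Module ℂ W]
    [AddCommGroup W'] [Module ℂ W'] [FiniteDimensional ℂ W] (α : V →ₗ[ℂ] W) (β : V →ₗ[ℂ] W')
    (h : LinearMap.ker α ≤ LinearMap.ker β) (hs : Function.Surjective β) :
    Module.finrank ℂ W' ≤ Module.finrank ℂ (LinearMap.range α) := by
  have e := α.quotKerEquivRange
  have : FiniteDimensional ℂ (V ⧸ LinearMap.ker α) := e.symm.finiteDimensional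
  rw [← e.finrank_eq]
  have hs' : Function.Surjective ((LinearMap.ker α).liftQ β h) := by
    intro w
    obtain ⟨v, rfl⟩ := hs w
    exact ⟨Submodule.Quotient.mk v, by rw [Submodule.liftQ_apply]⟩
  exact LinearMap.finrank_le_finrank_of_surjective hs'

/-- the linear map `f ↦ g` where `bl c f = x^k g` -/
theorem DC_map (c : ℂ) (k : ℕ) :
    ∃ φ : (Submodule.restrictScalars ℂ (mI ^ k : Ideal P2)) →ₗ[ℂ] P2, ∀ f, bl c f.1 = X 0 ^ k * φ f := by
  choose g hg using fun f : (Submodule.restrictScalars ℂ (mI ^ k : Ideal P2)) =>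
    bl_dvd c f.1 k (Submodule.restrictScalars_mem ℂ (mI ^ k : Ideal P2) f.1 |>.1 f.2)
  refine ⟨{ toFun := g, map_add' := fun x y => ?_, map_smul' := fun r x => ?_ }, fun f => hg f⟩
  · apply DC_cancel k
    rw [← hg, mul_add, ← hg, ← hg, Submodule.coe_add, map_add]
  · apply DC_cancel k
    rw [← hg, RingHom.id_apply, mul_smul_comm, ← hg, Submodule.coe_smul, map_smul]

theorem DC_J_le (A B : P2) (ν k n : ℕ) (hν : ν ≤ k) (hA : A ∈ mI ^ ν) (hB : B ∈ mI ^ ν) :
    mI ^ (k - ν) * Ideal.span ({A, B} : Set P2) ⊔ mI ^ (k + n) ≤ mI ^ k := by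
  refine sup_le ?_ (Ideal.pow_le_pow_right (Nat.le_add_right k n))
  have h1 : Ideal.span ({A, B} : Set P2) ≤ mI ^ ν := by
    rw [Ideal.span_le]
    rintro x (rfl | rfl)
    · exact hA
    · exact hB
  calc mI ^ (k - ν) * Ideal.span ({A, B} : Set P2) ≤ mI ^ (k - ν) * mI ^ ν := Ideal.mul_mono_right h1
    _ = mI ^ k := by rw [← pow_add, Nat.sub_add_cancel hν]

/-- on `J` the quotient `g` lies in `I'` -/
theorem DC_J_kill (A B A' B' : P2) (ν k n : ℕ) (c : ℂ) (hν : ν ≤ k)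
    (hA' : bl c A = X 0 ^ ν * A') (hB' : bl c B = X 0 ^ ν * B') (f : P2)
    (hf : f ∈ mI ^ (k - ν) * Ideal.span ({A, B} : Set P2) ⊔ mI ^ (k + n)) :
    ∃ g ∈ (Ideal.span ({A', B'} : Set P2) ⊔ mI ^ n), X 0 ^ k * g = bl c f := by
  have key : mI ^ (k - ν) * Ideal.span ({A, B} : Set P2) ⊔ mI ^ (k + n) ≤
      Ideal.comap (bl c) (Ideal.span {(X 0 : P2) ^ k} * (Ideal.span ({A', B'} : Set P2) ⊔ mI ^ n)) := by
    refine sup_le ?_ ?_
    · rw [Ideal.mul_le]
      intro r hr s hs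
      rw [Ideal.mem_comap, Ideal.mem_span_singleton_mul]
      obtain ⟨r', hr'⟩ := bl_dvd c r (k - ν) hr
      obtain ⟨p, q, rfl⟩ := Ideal.mem_span_pair.1 hs
      refine ⟨r' * (bl c p * A' + bl c q * B'), ?_, ?_⟩
      · refine Ideal.mul_mem_left _ _ (Ideal.mem_sup_left ?_)
        exact Ideal.mem_span_pair.2 ⟨_, _, rfl⟩
      · have e : (X 0 : P2) ^ k = X 0 ^ (k - ν) * X 0 ^ ν := by rw [← pow_add, Nat.sub_add_cancel hν]
        rw [map_mul, map_add, map_mul, map_mul, hr', hA', hB', e]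
        ring
    · intro r hr
      rw [Ideal.mem_comap, Ideal.mem_span_singleton_mul]
      obtain ⟨r', hr'⟩ := bl_dvd c r (k + n) hr
      refine ⟨X 0 ^ n * r', ?_, ?_⟩
      · refine Ideal.mem_sup_right (Ideal.mul_mem_right _ _ (Ideal.pow_mem_pow ?_ n))
        exact Ideal.subset_span ⟨0, rfl⟩
      · rw [hr', pow_add, mul_assoc]
  have h2 := key hf
  rw [Ideal.mem_comap, Ideal.mem_span_singleton_mul] at h2
  exact h2

theorem dimStep1 (A B A' B' : P2) (ν k n : ℕ) (c : ℂ) (hν : ν ≤ k) (hn : n ≤ k + 1)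
    (hA : A ∈ mI ^ ν) (hB : B ∈ mI ^ ν)
    (hA' : bl c A = X 0 ^ ν * A') (hB' : bl c B = X 0 ^ ν * B') :
    Module.finrank ℂ (P2 ⧸ (Ideal.span ({A', B'} : Set P2) ⊔ mI ^ n)) +
        Module.finrank ℂ (P2 ⧸ (mI ^ k : Ideal P2)) ≤
      Module.finrank ℂ (P2 ⧸ (mI ^ (k - ν) * Ideal.span ({A, B} : Set P2) ⊔ mI ^ (k + n))) := by
  obtain ⟨φ, hφ⟩ := DC_map c k
  have hJk := DC_J_le A B ν k n hν hA hB
  have hkill := DC_J_kill A B A' B' ν k n c hν hA' hB'
  generalize hJ : mI ^ (k - ν) * Ideal.span ({A, B} : Set P2) ⊔ mI ^ (k + n) = J at *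
  generalize hI : Ideal.span ({A', B'} : Set P2) ⊔ mI ^ n = I' at *
  have : FiniteDimensional ℂ (P2 ⧸ J) := fd_of_le J (k + n) (hJ ▸ le_sup_right)
  have : FiniteDimensional ℂ (P2 ⧸ (mI ^ k : Ideal P2)) := fd_of_le _ k le_rfl
  let α : (Submodule.restrictScalars ℂ (mI ^ k : Ideal P2)) →ₗ[ℂ] (P2 ⧸ J) :=
    (Ideal.Quotient.mkₐ ℂ J).toLinearMap ∘ₗ (Submodule.restrictScalars ℂ (mI ^ k : Ideal P2)).subtype
  let β : (Submodule.restrictScalars ℂ (mI ^ k : Ideal P2)) →ₗ[ℂ] (P2 ⧸ I') :=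
    (Ideal.Quotient.mkₐ ℂ I').toLinearMap ∘ₗ φ
  let Ψ : (P2 ⧸ J) →ₗ[ℂ] (P2 ⧸ (mI ^ k : Ideal P2)) := (Ideal.Quotient.factorₐ ℂ hJk).toLinearMap
  have hα : ∀ f, α f = Ideal.Quotient.mk J f.1 := fun _ => rfl
  have hβ : ∀ f, β f = Ideal.Quotient.mk I' (φ f) := fun _ => rfl
  have hΨ : ∀ f, Ψ (Ideal.Quotient.mk J f) = Ideal.Quotient.mk (mI ^ k : Ideal P2) f := fun _ => rfl
  have h1 : LinearMap.ker α ≤ LinearMap.ker β := by
    intro f hf
    rw [LinearMap.mem_ker, hα, Ideal.Quotient.eq_zero_iff_mem] at hf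
    rw [LinearMap.mem_ker, hβ, Ideal.Quotient.eq_zero_iff_mem]
    obtain ⟨g, hg, hg'⟩ := hkill f.1 hf
    rw [hφ] at hg'
    rwa [← DC_cancel k hg']
  have h2 : Function.Surjective β := by
    intro w
    obtain ⟨g, rfl⟩ := Ideal.Quotient.mk_surjective w
    obtain ⟨f, hf, h, hfh, hgh⟩ := bl_surj c k n hn g
    refine ⟨⟨f, hf⟩, ?_⟩
    have h3 : φ ⟨f, hf⟩ = h := by
      apply DC_cancel k
      rw [← hfh, ← hφ]
    rw [hβ, h3, eq_comm, Ideal.Quotient.eq]
    rw [← hI]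
    exact Ideal.mem_sup_right hgh
  have h3 := DC_finrank_range α β h1 h2
  have h4 : LinearMap.range α ≤ LinearMap.ker Ψ := by
    rintro _ ⟨f, rfl⟩
    rw [LinearMap.mem_ker, hα, hΨ, Ideal.Quotient.eq_zero_iff_mem]
    exact f.2
  have h5 := Submodule.finrank_mono h4
  have h6 : LinearMap.range Ψ = ⊤ := by
    rw [LinearMap.range_eq_top]
    intro w
    obtain ⟨g, rfl⟩ := Ideal.Quotient.mk_surjective w
    exact ⟨Ideal.Quotient.mk J g, hΨ g⟩
  have h7 := LinearMap.finrank_range_add_finrank_ker Ψ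
  rw [h6, finrank_top] at h7
  omega

end FC76
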