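import Pool.Agent.H76.FC.DA

/-!
# Row DD: second dimension inequality (Koszul syzygies)

I := span {A,B},  I_N := I + m^N,  J := m^j I + m^N (contained in I_N).
 dim P2/J = dim P2/I_N + dim I_N/J.
 The linear map  (P2/m^j) x (P2/m^j) -> I_N/J,  (a,b) ↦ a A + b B, is well defined (m^j A in J) and onto (an element of I_N is
 a A + b B + r with r in m^N contained in J).
 The linear map  P2/m^(j-nu) -> (P2/m^j) x (P2/m^j),  a ↦ (a B, - a A), is well defined (A, B in m^nu), goes to the kernel of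
 the previous one (a B A - a A B = 0) and is injective: if a B and a A are in m^j, and say A is not in m^(nu+1), then
 a in m^(j-nu) by `mem_of_mul_mem`.
 Rank-nullity:  dim I_N/J = 2 dim P2/m^j - dim kernel <= 2 dim P2/m^j - dim P2/m^(j-nu).
-/

open MvPolynomial

namespace FC76

/-- multiplication by `A` on quotients -/
noncomputable def DD_mul (A : P2) (I J : Ideal P2) (h : ∀ a ∈ I, a * A ∈ J) : (P2 ⧸ I) →ₗ[ℂ] (P2 ⧸ J) :=
  (Submodule.mapQ I J (LinearMap.toSpanSingleton P2 P2 A) (fun a ha => by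
    rw [Submodule.mem_comap, LinearMap.toSpanSingleton_apply, smul_eq_mul]
    exact h a ha)).restrictScalars ℂ

theorem DD_mul_mk (A : P2) (I J : Ideal P2) (h : ∀ a ∈ I, a * A ∈ J) (a : P2) :
    DD_mul A I J h (Ideal.Quotient.mk I a) = Ideal.Quotient.mk J (a * A) := rfl

theorem dimStep2 (A B : P2) (ν j N : ℕ) (hν : ν ≤ j) (hA : A ∈ mI ^ ν) (hB : B ∈ mI ^ ν)
    (hmin : A ∉ mI ^ (ν + 1) ∨ B ∉ mI ^ (ν + 1)) :
    Module.finrank ℂ (P2 ⧸ (mI ^ j * Ideal.span ({A, B} : Set P2) ⊔ mI ^ N)) +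
        Module.finrank ℂ (P2 ⧸ (mI ^ (j - ν) : Ideal P2)) ≤
      Module.finrank ℂ (P2 ⧸ (Ideal.span ({A, B} : Set P2) ⊔ mI ^ N)) +
        2 * Module.finrank ℂ (P2 ⧸ (mI ^ j : Ideal P2)) := by
  set K : Ideal P2 := Ideal.span ({A, B} : Set P2) ⊔ mI ^ N with hK
  set J : Ideal P2 := mI ^ j * Ideal.span ({A, B} : Set P2) ⊔ mI ^ N with hJ
  have hJK : J ≤ K := sup_le_sup_right Ideal.mul_le_right _
  have hNJ : mI ^ N ≤ J := le_sup_right
  have f1 : FiniteDimensional ℂ (P2 ⧸ J) := fd_of_le J N hNJ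
  have f2 : FiniteDimensional ℂ (P2 ⧸ K) := fd_of_le K N le_sup_right
  have f3 : FiniteDimensional ℂ (P2 ⧸ (mI ^ j : Ideal P2)) := fd_of_le _ j le_rfl
  have f4 : FiniteDimensional ℂ (P2 ⧸ (mI ^ (j - ν) : Ideal P2)) := fd_of_le _ (j - ν) le_rfl
  have hAs : A ∈ Ideal.span ({A, B} : Set P2) := Ideal.subset_span (by simp)
  have hBs : B ∈ Ideal.span ({A, B} : Set P2) := Ideal.subset_span (by simp)
  have mA : ∀ a ∈ (mI ^ j : Ideal P2), a * A ∈ J := fun a ha =>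
    Ideal.mem_sup_left (Ideal.mul_mem_mul ha hAs)
  have mB : ∀ a ∈ (mI ^ j : Ideal P2), a * B ∈ J := fun a ha =>
    Ideal.mem_sup_left (Ideal.mul_mem_mul ha hBs)
  have hpow : (mI ^ (j - ν) : Ideal P2) * mI ^ ν = mI ^ j := by
    rw [← pow_add, Nat.sub_add_cancel hν]
  have nA : ∀ a ∈ (mI ^ (j - ν) : Ideal P2), a * A ∈ (mI ^ j : Ideal P2) := fun a ha => by
    rw [← hpow]
    exact Ideal.mul_mem_mul ha hA
  have nB : ∀ a ∈ (mI ^ (j - ν) : Ideal P2), a * B ∈ (mI ^ j : Ideal P2) := fun a ha => by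
    rw [← hpow]
    exact Ideal.mul_mem_mul ha hB
  -- the projection
  let π : (P2 ⧸ J) →ₗ[ℂ] (P2 ⧸ K) := (Submodule.factor hJK).restrictScalars ℂ
  have hπmk : ∀ a : P2, π (Ideal.Quotient.mk J a) = Ideal.Quotient.mk K a := fun a => rfl
  have hπs : Function.Surjective π := by
    intro y
    obtain ⟨a, rfl⟩ := Ideal.Quotient.mk_surjective y
    exact ⟨Ideal.Quotient.mk J a, hπmk a⟩
  -- the first map
  let Φ : ((P2 ⧸ (mI ^ j : Ideal P2)) × (P2 ⧸ (mI ^ j : Ideal P2))) →ₗ[ℂ] (P2 ⧸ J) :=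
    (DD_mul A _ J mA).coprod (DD_mul B _ J mB)
  have hΦ : ∀ a b : P2, Φ (Ideal.Quotient.mk _ a, Ideal.Quotient.mk _ b) =
      Ideal.Quotient.mk J (a * A) + Ideal.Quotient.mk J (b * B) := fun a b => rfl
  have hker : LinearMap.ker π ≤ LinearMap.range Φ := by
    intro x hx
    obtain ⟨f, rfl⟩ := Ideal.Quotient.mk_surjective x
    rw [LinearMap.mem_ker, hπmk, Ideal.Quotient.eq_zero_iff_mem, hK, Submodule.mem_sup] at hx
    obtain ⟨g, hg, r, hr, rfl⟩ := hx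
    obtain ⟨a, b, rfl⟩ := Ideal.mem_span_pair.1 hg
    refine ⟨(Ideal.Quotient.mk _ a, Ideal.Quotient.mk _ b), ?_⟩
    rw [hΦ, map_add, map_add, Ideal.Quotient.eq_zero_iff_mem.2 (hNJ hr), add_zero]
  -- the second map
  let Ψ : (P2 ⧸ (mI ^ (j - ν) : Ideal P2)) →ₗ[ℂ]
      ((P2 ⧸ (mI ^ j : Ideal P2)) × (P2 ⧸ (mI ^ j : Ideal P2))) :=
    (DD_mul B _ _ nB).prod (-(DD_mul A _ _ nA))
  have hΨ : ∀ a : P2, Ψ (Ideal.Quotient.mk _ a) =
      (Ideal.Quotient.mk _ (a * B), -Ideal.Quotient.mk _ (a * A)) := fun a => rfl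
  have hΨi : Function.Injective Ψ := by
    rw [← LinearMap.ker_eq_bot, LinearMap.ker_eq_bot']
    intro x hx
    obtain ⟨a, rfl⟩ := Ideal.Quotient.mk_surjective x
    rw [hΨ, Prod.mk_eq_zero, neg_eq_zero, Ideal.Quotient.eq_zero_iff_mem,
      Ideal.Quotient.eq_zero_iff_mem] at hx
    rw [Ideal.Quotient.eq_zero_iff_mem]
    rcases hmin with h | h
    · exact mem_of_mul_mem A a ν j h hν hx.2
    · exact mem_of_mul_mem B a ν j h hν hx.1
  have hΨr : LinearMap.range Ψ ≤ LinearMap.ker Φ := by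
    rintro _ ⟨x, rfl⟩
    obtain ⟨a, rfl⟩ := Ideal.Quotient.mk_surjective x
    rw [LinearMap.mem_ker, hΨ, ← map_neg, hΦ, ← map_add, Ideal.Quotient.eq_zero_iff_mem]
    have e : a * B * A + -(a * A) * B = 0 := by ring
    rw [e]
    exact J.zero_mem
  have r1 := LinearMap.finrank_range_add_finrank_ker π
  have r2 := LinearMap.finrank_range_add_finrank_ker Φ
  rw [LinearMap.range_eq_top.2 hπs, finrank_top] at r1
  rw [Module.finrank_prod] at r2
  have r3 := Submodule.finrank_mono hker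
  have r4 := Submodule.finrank_mono hΨr
  rw [LinearMap.finrank_range_of_inj hΨi] at r4
  omega

end FC76
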