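import Pool.Agent.H76.FC.DC
import Pool.Agent.H76.FC.DD

/-!
# Row DE: Noether's inequality

Given n put k := max (2 nu) n + 1 (so n <= k+1, 2 nu <= k), j := k - nu, N := k + n.  With D(t) = t(t+1)/2 (`finrank_mPow`):
 dimStep1:  mu'_n + D(k) <= dim P2/(m^(k-nu) I + m^(k+n)),
 dimStep2:  dim P2/(m^(k-nu) I + m^(k+n)) + D(k-2nu) <= mu_N + 2 D(k-nu) <= K + 2 D(k-nu).
 Hence mu'_n <= K + 2 D(k-nu) - D(k-2nu) - D(k) = K - nu^2  (the identity D(k) + D(k-2nu) = 2 D(k-nu) + nu^2, proved after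
 multiplying by 2 and writing k = 2 nu + t).  In particular nu^2 <= K.
-/

open MvPolynomial

namespace FC76

theorem DE_tri (a : ℕ) : 2 * (a * (a + 1) / 2) = a * (a + 1) :=
  Nat.mul_div_cancel' (Nat.even_mul_succ_self a).two_dvd

theorem DE_id (ν t : ℕ) : (2 * ν + t) * (2 * ν + t + 1) / 2 + t * (t + 1) / 2 =
    2 * ((ν + t) * (ν + t + 1) / 2) + ν ^ 2 := by
  have h1 := DE_tri (2 * ν + t)
  have h2 := DE_tri t
  have h3 := DE_tri (ν + t)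
  have h4 : (2 * ν + t) * (2 * ν + t + 1) + t * (t + 1) = 2 * ((ν + t) * (ν + t + 1)) + 2 * ν ^ 2 := by
    ring
  omega

theorem DE_step (A B A' B' : P2) (ν K : ℕ) (c : ℂ) (hA : A ∈ mI ^ ν) (hB : B ∈ mI ^ ν)
    (hmin : A ∉ mI ^ (ν + 1) ∨ B ∉ mI ^ (ν + 1))
    (hA' : bl c A = X 0 ^ ν * A') (hB' : bl c B = X 0 ^ ν * B') (hK : MultLe A B K) (n : ℕ) :
    Module.finrank ℂ (P2 ⧸ (Ideal.span ({A', B'} : Set P2) ⊔ mI ^ n)) + ν ^ 2 ≤ K := by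
  obtain ⟨t, ht⟩ : ∃ t, t = n + 1 := ⟨_, rfl⟩
  have e1 : 2 * ν + t - ν = ν + t := by omega
  have e2 : ν + t - ν = t := by omega
  have h1 := dimStep1 A B A' B' ν (2 * ν + t) n c (by omega) (by omega) hA hB hA' hB'
  have h2 := dimStep2 A B ν (ν + t) (2 * ν + t + n) (by omega) hA hB hmin
  have h3 := hK (2 * ν + t + n)
  rw [e1, finrank_mPow] at h1
  rw [e2, finrank_mPow, finrank_mPow] at h2
  have h4 := DE_id ν t
  omega

theorem noether (A B A' B' : P2) (ν K : ℕ) (c : ℂ) (hA : A ∈ mI ^ ν) (hB : B ∈ mI ^ ν)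
    (hmin : A ∉ mI ^ (ν + 1) ∨ B ∉ mI ^ (ν + 1))
    (hA' : bl c A = X 0 ^ ν * A') (hB' : bl c B = X 0 ^ ν * B') (hK : MultLe A B K) :
    ν ^ 2 ≤ K ∧ MultLe A' B' (K - ν ^ 2) := by
  have h := DE_step A B A' B' ν K c hA hB hmin hA' hB' hK
  refine ⟨(Nat.le_add_left _ _).trans (h 0), fun n => ?_⟩
  have := h n
  omega

end FC76
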