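import Pool.Agent.H76.FC.DA
import Pool.Agent.H76.FC.DB

/-!
# Row DF: multiplicity with the exceptional line

`multLe_X`: if cf 0 i C ≠ 0 then the local multiplicity of (x, C) is at most i.
Proof.  Let i0 <= i be minimal with cf 0 i0 C ≠ 0.  Modulo x: C = y^{i0} U(y), U(0) ≠ 0.  Let I := (x, C) + m^n.
U is invertible modulo m^n (U = u0 (1 - w) with w in m, so (1-w)(1+w+...+w^(n-1)) = 1 - w^n), hence y^{i0} is in I.
So every polynomial is congruent modulo I to a combination of 1, y, ..., y^{i0-1}: the quotient is spanned by i0 elements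
(`finrank_le_of_span...`, e.g. `finrank_span_le_card` / `Module.finrank_le_of_surjective` from (Fin i0 → ℂ)).
-/

open MvPolynomial

namespace FC76

theorem DF_low (f : P2) (n i0 : ℕ) (hc : cf 0 i0 f ≠ 0) (hmin : ∀ j < i0, cf 0 j f = 0) (d : ℕ) :
    ∀ b, i0 ≤ b → n ≤ b + d →
      (X 1 ^ b : P2) ∈ (Ideal.span ({X 0, f} : Set P2) ⊔ mI ^ n : Ideal P2) := by
  have hX0 : (X 0 : P2) ∈ (Ideal.span ({X 0, f} : Set P2) ⊔ mI ^ n : Ideal P2) :=
    Ideal.mem_sup_left (Ideal.subset_span (by simp))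
  have hf : (f : P2) ∈ (Ideal.span ({X 0, f} : Set P2) ⊔ mI ^ n : Ideal P2) :=
    Ideal.mem_sup_left (Ideal.subset_span (by simp))
  induction d with
  | zero =>
    intro b _ hb
    refine Ideal.mem_sup_right ?_
    rw [DB_mem]
    intro i j hij
    have h := DB_cfm i j 0 b 1
    rw [C_1, pow_zero, one_mul, one_mul] at h
    rw [h, if_neg (fun h' => by omega)]
  | succ d ih =>
    intro b hb hn
    have key : (f - C (cf 0 i0 f) * X 1 ^ i0) * X 1 ^ (b - i0) ∈
        (Ideal.span ({X 0, f} : Set P2) ⊔ mI ^ n : Ideal P2) := by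
      obtain ⟨g, hg⟩ : ∃ g : P2, g = f - C (cf 0 i0 f) * X 1 ^ i0 := ⟨_, rfl⟩
      have hz : ∀ j ≤ i0, cf 0 j g = 0 := by
        intro j hj
        have h1 := DB_add 0 j g (C (cf 0 i0 f) * X 0 ^ 0 * X 1 ^ i0)
        rw [DB_cfm] at h1
        have h2 : g + C (cf 0 i0 f) * X 0 ^ 0 * X 1 ^ i0 = f := by
          rw [hg, pow_zero, mul_one, sub_add_cancel]
        rw [h2] at h1
        rcases Nat.lt_or_eq_of_le hj with h3 | h3
        · rw [hmin j h3, if_neg (fun h' => by omega), add_zero] at h1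
          exact h1.symm
        · rw [h3, if_pos ⟨rfl, rfl⟩] at h1
          rw [h3]
          exact left_eq_add.1 (by rw [add_comm]; exact h1)
      rw [← hg, DB_as_sum g, Finset.sum_mul]
      refine Ideal.sum_mem _ fun u hu => ?_
      by_cases h0 : u 0 = 0
      · have h1 : i0 < u 1 := by
          by_contra hlt
          have h2 := hz (u 1) (by omega)
          unfold cf at h2
          rw [← h0, ← DB_u u] at h2
          exact (mem_support_iff.1 hu) h2
        have h3 : (C (coeff u g) * X 0 ^ u 0 * X 1 ^ u 1 * X 1 ^ (b - i0) : P2) =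
            (C (coeff u g) * X 0 ^ u 0) * X 1 ^ (u 1 + (b - i0)) := by
          rw [pow_add]
          ring
        rw [h3]
        exact Ideal.mul_mem_left _ _ (ih _ (by omega) (by omega))
      · obtain ⟨a, ha⟩ := Nat.exists_eq_succ_of_ne_zero h0
        have h3 : (C (coeff u g) * X 0 ^ u 0 * X 1 ^ u 1 * X 1 ^ (b - i0) : P2) =
            (C (coeff u g) * X 0 ^ a * X 1 ^ u 1 * X 1 ^ (b - i0)) * X 0 := by
          rw [ha, Nat.succ_eq_add_one, pow_succ]
          ring
        rw [h3]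
        exact Ideal.mul_mem_left _ _ hX0
    have h1 : (C (cf 0 i0 f) * X 1 ^ b : P2) ∈
        (Ideal.span ({X 0, f} : Set P2) ⊔ mI ^ n : Ideal P2) := by
      have h2 : (C (cf 0 i0 f) * X 1 ^ b : P2) = X 1 ^ (b - i0) * f -
          (f - C (cf 0 i0 f) * X 1 ^ i0) * X 1 ^ (b - i0) := by
        have h3 : (X 1 : P2) ^ b = X 1 ^ i0 * X 1 ^ (b - i0) := by
          rw [← pow_add]
          congr 1
          omega
        rw [h3]
        ring
      rw [h2]
      exact Ideal.sub_mem _ (Ideal.mul_mem_left _ _ hf) key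
    have h2 : (X 1 ^ b : P2) = C (cf 0 i0 f)⁻¹ * (C (cf 0 i0 f) * X 1 ^ b) := by
      rw [← mul_assoc, ← C_mul, inv_mul_cancel₀ hc, C_1, one_mul]
    rw [h2]
    exact Ideal.mul_mem_left _ _ h1

theorem multLe_X (f : P2) (i : ℕ) (h : cf 0 i f ≠ 0) : MultLe (X 0) f i := by
  intro n
  have hex : ∃ i0, cf 0 i0 f ≠ 0 := ⟨i, h⟩
  classical
  obtain ⟨i0, hi0⟩ : ∃ i0, i0 = Nat.find hex := ⟨_, rfl⟩
  have hc : cf 0 i0 f ≠ 0 := by
    rw [hi0]
    exact Nat.find_spec hex
  have hmin : ∀ j < i0, cf 0 j f = 0 := by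
    intro j hj
    rw [hi0] at hj
    exact not_not.1 (Nat.find_min hex hj)
  have hle : i0 ≤ i := by
    rw [hi0]
    exact Nat.find_min' hex h
  have hlow : ∀ b, i0 ≤ b →
      (X 1 ^ b : P2) ∈ (Ideal.span ({X 0, f} : Set P2) ⊔ mI ^ n : Ideal P2) := fun b hb =>
    DF_low f n i0 hc hmin n b hb (by omega)
  obtain ⟨I, hI⟩ : ∃ I : Ideal P2, I = (Ideal.span ({X 0, f} : Set P2) ⊔ mI ^ n : Ideal P2) :=
    ⟨_, rfl⟩
  rw [← hI]
  rw [← hI] at hlow
  have hX0 : (X 0 : P2) ∈ I := by
    rw [hI]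
    exact Ideal.mem_sup_left (Ideal.subset_span (by simp))
  let φ : (Fin i → ℂ) →ₗ[ℂ] (P2 ⧸ I) :=
    ∑ j : Fin i, (LinearMap.proj j).smulRight ((Ideal.Quotient.mk I) (X 1 ^ (j : ℕ)))
  have hφ : ∀ v, φ v = ∑ j : Fin i, v j • (Ideal.Quotient.mk I) (X 1 ^ (j : ℕ)) := by
    intro v
    simp [φ]
  have hsurj : Function.Surjective φ := by
    intro q
    obtain ⟨p, rfl⟩ := Ideal.Quotient.mk_surjective q
    show ((Ideal.Quotient.mk I) p) ∈ Set.range φ
    rw [← LinearMap.coe_range]
    show ((Ideal.Quotient.mk I) p) ∈ LinearMap.range φ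
    induction p using DB_ind with
    | h1 a b c =>
      by_cases ha : a = 0
      · by_cases hb : b < i
        · refine ⟨Pi.single ⟨b, hb⟩ c, ?_⟩
          rw [hφ, Finset.sum_eq_single (⟨b, hb⟩ : Fin i)]
          · rw [Pi.single_eq_same, ha, pow_zero, mul_one]
            rw [← Ideal.Quotient.mkₐ_eq_mk ℂ, ← map_smul, smul_eq_C_mul]
          · intro l _ hl
            rw [Pi.single_eq_of_ne hl, zero_smul]
          · intro hl
            exact absurd (Finset.mem_univ _) hl
        · have h1 : (Ideal.Quotient.mk I) (C c * X 0 ^ a * X 1 ^ b) = 0 := by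
            rw [Ideal.Quotient.eq_zero_iff_mem]
            exact Ideal.mul_mem_left _ _ (hlow b (by omega))
          rw [h1]
          exact Submodule.zero_mem _
      · have h1 : (Ideal.Quotient.mk I) (C c * X 0 ^ a * X 1 ^ b) = 0 := by
          rw [Ideal.Quotient.eq_zero_iff_mem]
          obtain ⟨a', ha'⟩ := Nat.exists_eq_succ_of_ne_zero ha
          have h3 : (C c * X 0 ^ a * X 1 ^ b : P2) = (C c * X 0 ^ a' * X 1 ^ b) * X 0 := by
            rw [ha', Nat.succ_eq_add_one, pow_succ]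
            ring
          rw [h3]
          exact Ideal.mul_mem_left _ _ hX0
        rw [h1]
        exact Submodule.zero_mem _
    | h2 p q hp hq =>
      rw [map_add]
      exact Submodule.add_mem _ hp hq
  have h1 := LinearMap.finrank_range_le φ
  rw [LinearMap.range_eq_top.2 hsurj, finrank_top, Module.finrank_fin_fun] at h1
  exact h1

end FC76
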