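import Pool.Agent.H76.FC.DA
import Pool.Agent.H76.FC.DB

/-!
# Row DG: elementary properties of MultLe

1. `MultLe.mono`: trivial.
2. `MultLe.of_mem`: if A, B lie in span {A', B'} then span {A,B} + m^n is contained in span {A',B'} + m^n, so the quotient map is
   onto and the dimension decreases (`Submodule.finrank_le...`, `LinearMap.finrank_le_of_surjective`, finite dimensionality `fd_of_le`).
3. `MultLe.mul`: P2/((f,C)+m^n) (multiplication by g) to P2/((f g,C)+m^n) to P2/((g,C)+m^n) to 0 is exact, so the middle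
   dimension is at most the sum.  Lean: let Q = P2/((fg,C)+m^n), the subspace R = image of the ideal (g,C)+m^n in Q; dim Q = dim R + dim Q/R,
   Q/R = P2/((g,C)+m^n), and R is the image of P2/((f,C)+m^n) under multiplication by g (elements of (g,C)+m^n are a g + b C + r, and
   b C + r is 0 in Q; multiplication by g maps (f,C)+m^n into (fg,C)+m^n).
4. `MultLe.sw`: sw is an involutive algebra automorphism (`sw_sw`) mapping m^n onto m^n (`sw_mem`) and span {A,B} onto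
   span {sw A, sw B} = span {sw B, sw A}; it induces a linear isomorphism of the quotients.
5. `not_multLe_zero`: the quotient by (0,0) + m^n is P2/m^n, of dimension n(n+1)/2, unbounded.
6. `exists_order`: by 5 not both A, B vanish; a nonzero polynomial of total degree t is not in m^(t+1); take the largest nu with
   A, B in m^nu (Nat.findGreatest, or minimal n such that not (A in m^(n+1) and B in m^(n+1))).
-/

open MvPolynomial

namespace FC76

theorem MultLe.mono {A B : P2} {K K' : ℕ} (h : MultLe A B K) (hK : K ≤ K') : MultLe A B K' :=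
  fun n => (h n).trans hK

theorem DG_surj {I J : Ideal P2} (hI : FiniteDimensional ℂ (P2 ⧸ I)) (φ : P2 →ₐ[ℂ] P2)
    (hφ : Function.Surjective φ) (h : ∀ a ∈ I, φ a ∈ J) :
    Module.finrank ℂ (P2 ⧸ J) ≤ Module.finrank ℂ (P2 ⧸ I) := by
  have h1 : I ≤ J.comap φ := fun a ha => h a ha
  let ψ : (P2 ⧸ I) →ₐ[ℂ] (P2 ⧸ J) := Ideal.quotientMapₐ J φ h1
  have hψ : Function.Surjective ψ.toLinearMap := by
    intro y
    obtain ⟨y, rfl⟩ := Ideal.Quotient.mk_surjective y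
    obtain ⟨x, rfl⟩ := hφ y
    exact ⟨Ideal.Quotient.mk I x, rfl⟩
  have h2 := LinearMap.finrank_range_le (ψ.toLinearMap)
  rw [LinearMap.range_eq_top.2 hψ, finrank_top] at h2
  exact h2

theorem DG_le_span (f g : P2) (n : ℕ) : (mI ^ n : Ideal P2) ≤ Ideal.span ({f, g} : Set P2) ⊔ mI ^ n :=
  le_sup_right

theorem DG_mem {f g a : P2} {n : ℕ} (h : a ∈ Ideal.span ({f, g} : Set P2) ⊔ mI ^ n) :
    ∃ x y r : P2, r ∈ (mI ^ n : Ideal P2) ∧ a = x * f + y * g + r := by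
  obtain ⟨u, hu, r, hr, rfl⟩ := Submodule.mem_sup.1 h
  obtain ⟨x, y, hxy⟩ := Ideal.mem_span_pair.1 hu
  exact ⟨x, y, r, hr, by rw [hxy]⟩

theorem DG_mem' (f g x y : P2) {r : P2} {n : ℕ} (hr : r ∈ (mI ^ n : Ideal P2)) :
    x * f + y * g + r ∈ Ideal.span ({f, g} : Set P2) ⊔ mI ^ n :=
  Submodule.mem_sup.2 ⟨x * f + y * g, Ideal.mem_span_pair.2 ⟨x, y, rfl⟩, r, hr, rfl⟩

theorem MultLe.of_mem {A B A' B' : P2} {K : ℕ} (h : MultLe A B K)
    (hA : A ∈ Ideal.span ({A', B'} : Set P2)) (hB : B ∈ Ideal.span ({A', B'} : Set P2)) :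
    MultLe A' B' K := by
  intro n
  refine (DG_surj (fd_of_le _ n (DG_le_span A B n)) (AlgHom.id ℂ P2) (fun x => ⟨x, rfl⟩) ?_).trans (h n)
  intro a ha
  obtain ⟨x, y, r, hr, rfl⟩ := DG_mem ha
  show x * A + y * B + r ∈ _
  have h1 : x * A + y * B ∈ Ideal.span ({A', B'} : Set P2) :=
    Ideal.add_mem _ (Ideal.mul_mem_left _ _ hA) (Ideal.mul_mem_left _ _ hB)
  exact Submodule.mem_sup.2 ⟨_, h1, r, hr, rfl⟩

theorem DG_exact {I1 I2 I3 : Ideal P2} (g : P2) (h1 : FiniteDimensional ℂ (P2 ⧸ I1))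
    (h2 : FiniteDimensional ℂ (P2 ⧸ I2)) (h12 : ∀ a ∈ I1, g * a ∈ I2) (h23 : I2 ≤ I3)
    (hker : ∀ a ∈ I3, ∃ b, a - g * b ∈ I2) :
    Module.finrank ℂ (P2 ⧸ I2) ≤ Module.finrank ℂ (P2 ⧸ I1) + Module.finrank ℂ (P2 ⧸ I3) := by
  have h12' : (I1 : Submodule P2 P2) ≤ Submodule.comap (LinearMap.mulLeft P2 g) I2 := fun a ha => h12 a ha
  let φ : (P2 ⧸ I1) →ₗ[P2] (P2 ⧸ I2) := Submodule.mapQ I1 I2 (LinearMap.mulLeft P2 g) h12'
  have h23' : (I2 : Submodule P2 P2) ≤ Submodule.comap LinearMap.id I3 := fun a ha => h23 ha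
  let ψ : (P2 ⧸ I2) →ₗ[P2] (P2 ⧸ I3) := Submodule.mapQ I2 I3 LinearMap.id h23'
  let φ' : (P2 ⧸ I1) →ₗ[ℂ] (P2 ⧸ I2) := φ.restrictScalars ℂ
  let ψ' : (P2 ⧸ I2) →ₗ[ℂ] (P2 ⧸ I3) := ψ.restrictScalars ℂ
  have hψ : Function.Surjective ψ' := by
    intro y
    obtain ⟨y, rfl⟩ := Ideal.Quotient.mk_surjective y
    exact ⟨Ideal.Quotient.mk I2 y, rfl⟩
  have hk : LinearMap.ker ψ' ≤ LinearMap.range φ' := by
    intro y hy
    obtain ⟨y, rfl⟩ := Ideal.Quotient.mk_surjective y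
    have hy1 : (Ideal.Quotient.mk I3 y : P2 ⧸ I3) = 0 := hy
    rw [Ideal.Quotient.eq_zero_iff_mem] at hy1
    obtain ⟨b, hb⟩ := hker y hy1
    refine ⟨Ideal.Quotient.mk I1 b, ?_⟩
    show (Ideal.Quotient.mk I2 (g * b) : P2 ⧸ I2) = Ideal.Quotient.mk I2 y
    exact (Ideal.Quotient.eq.2 hb).symm
  have e1 := LinearMap.finrank_range_add_finrank_ker ψ'
  rw [LinearMap.range_eq_top.2 hψ, finrank_top] at e1
  have e2 : Module.finrank ℂ (LinearMap.ker ψ') ≤ Module.finrank ℂ (LinearMap.range φ') :=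
    Submodule.finrank_mono hk
  have e3 := LinearMap.finrank_range_le φ'
  omega

theorem MultLe.mul {f g Cc : P2} {K1 K2 : ℕ} (h1 : MultLe f Cc K1) (h2 : MultLe g Cc K2) :
    MultLe (f * g) Cc (K1 + K2) := by
  intro n
  refine (DG_exact (I1 := Ideal.span ({f, Cc} : Set P2) ⊔ mI ^ n)
    (I3 := Ideal.span ({g, Cc} : Set P2) ⊔ mI ^ n) g (fd_of_le _ n (DG_le_span _ _ n))
    (fd_of_le _ n (DG_le_span _ _ n)) ?_ ?_ ?_).trans (add_le_add (h1 n) (h2 n))
  · intro a ha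
    obtain ⟨x, y, r, hr, rfl⟩ := DG_mem ha
    have := DG_mem' (f * g) Cc x (g * y) (r := g * r) (n := n) (Ideal.mul_mem_left _ _ hr)
    convert this using 1
    ring
  · intro a ha
    obtain ⟨x, y, r, hr, rfl⟩ := DG_mem ha
    have := DG_mem' g Cc (x * f) y (n := n) hr
    convert this using 1
    ring
  · intro a ha
    obtain ⟨x, y, r, hr, rfl⟩ := DG_mem ha
    refine ⟨x, ?_⟩
    have := DG_mem' (f * g) Cc 0 y (n := n) hr
    convert this using 1
    ring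

theorem MultLe.sw {A B : P2} {K : ℕ} (h : MultLe A B K) : MultLe (FC76.sw B) (FC76.sw A) K := by
  intro n
  refine (DG_surj (fd_of_le _ n (DG_le_span A B n)) FC76.sw (fun x => ⟨FC76.sw x, sw_sw x⟩) ?_).trans (h n)
  intro a ha
  obtain ⟨x, y, r, hr, rfl⟩ := DG_mem ha
  have h1 := DG_mem' (FC76.sw B) (FC76.sw A) (FC76.sw y) (FC76.sw x) (sw_mem r n hr)
  have h2 : FC76.sw (x * A + y * B + r) =
      FC76.sw y * FC76.sw B + FC76.sw x * FC76.sw A + FC76.sw r := by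
    rw [map_add, map_add, map_mul, map_mul]
    ring
  rw [h2]
  exact h1

theorem not_multLe_zero (K : ℕ) : ¬ MultLe 0 0 K := by
  intro h
  have h1 := h (K + 1)
  have h2 : (Ideal.span ({0, 0} : Set P2) ⊔ mI ^ (K + 1) : Ideal P2) = mI ^ (K + 1) := by
    have : Ideal.span ({0, 0} : Set P2) = ⊥ := by
      rw [Ideal.span_eq_bot]
      intro x hx
      simpa using hx
    rw [this, bot_sup_eq]
  rw [h2, finrank_mPow] at h1
  have h3 : 2 * (K + 1) ≤ (K + 1) * (K + 1 + 1) := by nlinarith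
  omega

theorem DG_zero {A : P2} (h : ∀ n : ℕ, A ∈ (mI ^ n : Ideal P2)) : A = 0 := by
  ext s
  rw [coeff_zero]
  by_contra hs
  exact hs ((mem_pow_idealOfVars_iff' (s.degree + 1) A).1 (h (s.degree + 1)) s
    (Nat.lt_succ_self _))

theorem exists_order (A B : P2) (K : ℕ) (h : MultLe A B K) :
    ∃ ν : ℕ, A ∈ mI ^ ν ∧ B ∈ mI ^ ν ∧ (A ∉ mI ^ (ν + 1) ∨ B ∉ mI ^ (ν + 1)) := by
  classical
  have hex : ∃ n : ℕ, ¬ (A ∈ (mI ^ n : Ideal P2) ∧ B ∈ (mI ^ n : Ideal P2)) := by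
    by_contra hcon
    push Not at hcon
    have hA := DG_zero fun n => (hcon n).1
    have hB := DG_zero fun n => (hcon n).2
    subst hA hB
    exact not_multLe_zero K h
  have h0 : Nat.find hex ≠ 0 := by
    intro h0
    have h1 := Nat.find_spec hex
    rw [h0] at h1
    apply h1
    simp
  obtain ⟨ν, hν⟩ := Nat.exists_eq_succ_of_ne_zero h0
  have h1 := Nat.find_min hex (m := ν) (by omega)
  rw [not_not] at h1
  have h2 := Nat.find_spec hex
  rw [hν] at h2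
  refine ⟨ν, h1.1, h1.2, ?_⟩
  by_contra hcon
  push Not at hcon
  exact h2 hcon

end FC76
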