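import Pool.Agent.H76.FC.DA

/-!
# Row DH: isolated zeros have finite multiplicity

Let s be a polynomial with s(0) ≠ 0 that vanishes at every common zero p ≠ 0 of A and B.  Then MultLe A B K for some K.
Proof.  X i * s vanishes on the zero set of the ideal (A,B) (at p = 0 because of X i, elsewhere because of s), so by the
Nullstellensatz (`MvPolynomial.vanishingIdeal_zeroLocus_eq_radical`) (X i * s)^N is in (A,B) for some common N (i = 0,1).
Fix n.  Modulo m^n the polynomial s^N is invertible (nonzero constant term: s^N = s0 (1 - w), w in m, geometric series), so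
(X i)^N is in I := (A,B) + m^n.  Hence the quotient P2/I is spanned by the N^2 monomials x^i y^j, i, j < N, and its dimension is
at most K := N^2, for every n.
-/

open MvPolynomial

namespace FC76

theorem DH_rad (A B s : P2)
    (h : ∀ p : Fin 2 → ℂ, eval p A = 0 → eval p B = 0 → p ≠ 0 → eval p s = 0) (i : Fin 2) :
    ∃ N : ℕ, (X i * s) ^ N ∈ Ideal.span ({A, B} : Set P2) := by
  have h1 : X i * s ∈ (Ideal.span ({A, B} : Set P2)).radical := by
    rw [← vanishingIdeal_zeroLocus_eq_radical (K := ℂ), mem_vanishingIdeal_iff]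
    intro p hp
    rw [mem_zeroLocus_iff] at hp
    have hA : eval p A = 0 := by
      have := hp A (Ideal.subset_span (by simp))
      rwa [aeval_eq_eval] at this
    have hB : eval p B = 0 := by
      have := hp B (Ideal.subset_span (by simp))
      rwa [aeval_eq_eval] at this
    rw [aeval_eq_eval, map_mul, eval_X]
    by_cases h0 : p = 0
    · rw [h0, Pi.zero_apply, zero_mul]
    · rw [h p hA hB h0, mul_zero]
  exact h1

theorem DH_unit (s : P2) (hs : eval 0 s ≠ 0) (n : ℕ) (I : Ideal P2) (hI : mI ^ n ≤ I) :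
    IsUnit (Ideal.Quotient.mk I s) := by
  have h1 : s - C (eval 0 s) ∈ mI ^ 1 := by
    rw [mem_pow_idealOfVars_iff']
    intro x hx
    have hx0 : x = 0 := by
      have : Finsupp.degree x = 0 := by omega
      exact (Finsupp.degree_eq_zero_iff x).1 this
    rw [hx0, coeff_sub, coeff_C, if_pos rfl, ← constantCoeff_eq, eval_zero, sub_self]
  rw [pow_one] at h1
  have h2 : IsNilpotent (Ideal.Quotient.mk I (s - C (eval 0 s))) := by
    refine ⟨n, ?_⟩
    rw [← map_pow, Ideal.Quotient.eq_zero_iff_mem]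
    exact hI (Ideal.pow_mem_pow h1 n)
  have h3 : IsUnit (Ideal.Quotient.mk I (C (eval 0 s))) := by
    have : IsUnit (C (eval 0 s) : P2) := (isUnit_iff_ne_zero.2 hs).map C
    exact this.map _
  have h4 := h2.isUnit_add_left_of_commute h3 (Commute.all _ _)
  rw [← map_add] at h4
  have h5 : C (eval 0 s) + (s - C (eval 0 s)) = s := by ring
  rwa [h5] at h4

theorem DH_finrank (I : Ideal P2) (N : ℕ) (h : ∀ i : Fin 2, (X i : P2) ^ N ∈ I) :
    Module.finrank ℂ (P2 ⧸ I) ≤ N * N := by
  have h1 : Submodule.span ℂ (Set.range (fun v : Fin N × Fin N =>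
      Ideal.Quotient.mk I (X 0 ^ (v.1 : ℕ) * X 1 ^ (v.2 : ℕ)))) = ⊤ := by
    rw [eq_top_iff]
    rintro q -
    obtain ⟨p, rfl⟩ := Ideal.Quotient.mk_surjective q
    induction p using MvPolynomial.induction_on' with
    | monomial u a =>
      have h2 : (monomial u a : P2) = a • (X 0 ^ (u 0) * X 1 ^ (u 1)) := by
        rw [monomial_eq, Finsupp.prod_fintype _ _ (fun i => pow_zero _), Fin.prod_univ_two,
          smul_eq_C_mul]
      have h3 : Ideal.Quotient.mk I (monomial u a) =
          a • Ideal.Quotient.mk I (X 0 ^ (u 0) * X 1 ^ (u 1)) := by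
        rw [h2]
        rfl
      rw [h3]
      apply Submodule.smul_mem
      by_cases h4 : u 0 < N
      · by_cases h5 : u 1 < N
        · exact Submodule.subset_span ⟨(⟨u 0, h4⟩, ⟨u 1, h5⟩), rfl⟩
        · have h6 : (X 0 ^ (u 0) * X 1 ^ (u 1) : P2) ∈ I := by
            apply Ideal.mul_mem_left
            exact Ideal.pow_mem_of_pow_mem I (h 1) (not_lt.1 h5)
          rw [Ideal.Quotient.eq_zero_iff_mem.2 h6]
          exact Submodule.zero_mem _
      · have h6 : (X 0 ^ (u 0) * X 1 ^ (u 1) : P2) ∈ I := by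
          apply Ideal.mul_mem_right
          exact Ideal.pow_mem_of_pow_mem I (h 0) (not_lt.1 h4)
        rw [Ideal.Quotient.eq_zero_iff_mem.2 h6]
        exact Submodule.zero_mem _
    | add p q hp hq =>
      rw [map_add]
      exact Submodule.add_mem _ hp hq
  have h2 := finrank_range_le_card (R := ℂ) (fun v : Fin N × Fin N =>
      Ideal.Quotient.mk I (X 0 ^ (v.1 : ℕ) * X 1 ^ (v.2 : ℕ)))
  rw [Set.finrank, h1, finrank_top, Fintype.card_prod, Fintype.card_fin] at h2
  exact h2

theorem exists_multLe (A B s : P2) (hs : eval 0 s ≠ 0)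
    (h : ∀ p : Fin 2 → ℂ, eval p A = 0 → eval p B = 0 → p ≠ 0 → eval p s = 0) :
    ∃ K : ℕ, MultLe A B K := by
  obtain ⟨N0, h0⟩ := DH_rad A B s h 0
  obtain ⟨N1, h1⟩ := DH_rad A B s h 1
  refine ⟨(N0 + N1) * (N0 + N1), fun n => DH_finrank _ _ ?_⟩
  have key : ∀ i : Fin 2, (X i * s) ^ (N0 + N1) ∈ Ideal.span ({A, B} : Set P2) := by
    intro i
    fin_cases i
    · exact Ideal.pow_mem_of_pow_mem _ h0 (Nat.le_add_right _ _)
    · exact Ideal.pow_mem_of_pow_mem _ h1 (Nat.le_add_left _ _)
  intro i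
  have h2 := DH_unit s hs n (Ideal.span ({A, B} : Set P2) ⊔ mI ^ n) le_sup_right
  have h3 : (X i * s) ^ (N0 + N1) ∈ Ideal.span ({A, B} : Set P2) ⊔ mI ^ n :=
    Ideal.mem_sup_left (key i)
  rw [← Ideal.Quotient.eq_zero_iff_mem, mul_pow, map_mul, map_pow _ s] at h3
  rw [← Ideal.Quotient.eq_zero_iff_mem]
  exact ((h2.pow _).mul_left_eq_zero).1 h3

end FC76
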