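import Mathlib

/-!
# MP_6873ef_an, block D (resolution of planar polynomial vector fields): definitions

A polynomial vector field on C^2 is a pair (A, B) of polynomials in X 0 = x, X 1 = y.
-/

open MvPolynomial

namespace FC76

/-- polynomials in two complex variables x = X 0, y = X 1 -/
abbrev P2 := MvPolynomial (Fin 2) ℂ

/-- the maximal ideal of the origin; `mI ^ n` = polynomials all of whose monomials have degree at least n
(Mathlib: `MvPolynomial.mem_pow_idealOfVars_iff'`) -/
noncomputable abbrev mI : Ideal P2 := idealOfVars (Fin 2) ℂ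

/-- coefficient of x ^ i * y ^ j -/
noncomputable def cf (i j : ℕ) (f : P2) : ℂ :=
  coeff (Finsupp.single 0 i + Finsupp.single 1 j) f

/-- the local multiplicity of the ideal (A, B) at the origin is at most K -/
def MultLe (A B : P2) (K : ℕ) : Prop :=
  ∀ n : ℕ, Module.finrank ℂ (P2 ⧸ (Ideal.span ({A, B} : Set P2) ⊔ mI ^ n)) ≤ K

/-- the blow-up substitution: y becomes x * (y + c) -/
noncomputable def bl (c : ℂ) : P2 →ₐ[ℂ] P2 := aeval ![X 0, X 0 * (X 1 + C c)]

/-- exchange of the two variables -/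
noncomputable def sw : P2 →ₐ[ℂ] P2 := aeval ![X 1, X 0]

/-- (A1, C1) is the vector field (A, B) written in the chart y = x * (u + c) of the blow-up and divided by x ^ e -/
def BlTo (A B : P2) (c : ℂ) (e : ℕ) (A1 C1 : P2) : Prop :=
  X 0 ^ e * A1 = bl c A ∧ X 0 ^ (e + 1) * C1 = bl c B - (X 1 + C c) * bl c A

/-- isolated leading jet (k = 0: the vector field does not vanish at the origin) -/
def LJ (A B : P2) : Prop :=
  ∃ k : ℕ, A ∈ mI ^ k ∧ B ∈ mI ^ k ∧ ∀ p : Fin 2 → ℂ,
    eval p (homogeneousComponent k A) = 0 → eval p (homogeneousComponent k B) = 0 → p = 0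

/-- the closure properties of a class G of germs of vector fields (and of the class GE of germs together with the
exceptional line x = 0) used in the resolution -/
structure ResClosed (G GE : P2 → P2 → Prop) : Prop where
  toE : ∀ A B, G A B → GE A B
  swap : ∀ A B, G A B → G (sw B) (sw A)
  lj : ∀ A B, LJ A B → G A B
  blow : ∀ (A B : P2) (e : ℕ), (∀ c : ℂ, ∃ A1 C1, BlTo A B c e A1 C1 ∧ GE A1 C1) →
    (∃ A1 C1, BlTo (sw B) (sw A) 0 e A1 C1 ∧ GE A1 C1) → G A B
  sn : ∀ (m : ℕ) (a B : P2), 2 ≤ m → eval 0 a ≠ 0 → eval 0 B = 0 → cf 0 1 B ≠ 0 → GE (X 0 ^ m * a) B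

end FC76
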