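import Pool.Agent.H76.FC.DB

/-!
# Row RA: non-degenerate linear part or non-vanishing => isolated leading jet

`lj_of_ne`: k = 0: homogeneousComponent 0 f = C (coeff 0 f) and coeff 0 f = eval 0 f; the hypothesis on p is contradictory.
`lj_of_det`: k = 1: homogeneousComponent 1 f evaluated at p is cf 1 0 f * p 0 + cf 0 1 f * p 1; a linear system with nonzero
determinant.  A, B in mI^1 by `mem_mI_iff`, `eval_zero_eq_cf`.
`lj_two`: k = 2: for f in mI^2: homogeneousComponent 2 f evaluated at p is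
 cf 2 0 f * (p 0)^2 + cf 1 1 f * p 0 * p 1 + cf 0 2 f * (p 1)^2.   This is the form used later for degree two jets.
(General tool: `homogeneousComponent_apply` as a sum over the support filtered by degree; the exponents s : Fin 2 →₀ ℕ of degree 1
 are single 0 1, single 1 1, those of degree 2 are single 0 2, single 0 1 + single 1 1, single 1 2.)
-/

open MvPolynomial

namespace FC76

theorem RA_hc (n a b : ℕ) (c : ℂ) : homogeneousComponent n (C c * X 0 ^ a * X 1 ^ b : P2) =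
    if n = a + b then (C c * X 0 ^ a * X 1 ^ b : P2) else 0 := by
  apply homogeneousComponent_of_mem
  rw [mem_homogeneousSubmodule, ← DB_mon]
  apply isHomogeneous_monomial
  rw [map_add]
  simp

theorem eval_hc1 (f : P2) (p : Fin 2 → ℂ) :
    eval p (homogeneousComponent 1 f) = cf 1 0 f * p 0 + cf 0 1 f * p 1 := by
  induction f using DB_ind with
  | h1 a b c =>
    rw [RA_hc, DB_cfm, DB_cfm]
    by_cases h : 1 = a + b
    · have h2 : (a = 1 ∧ b = 0) ∨ (a = 0 ∧ b = 1) := by omega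
      rcases h2 with ⟨rfl, rfl⟩ | ⟨rfl, rfl⟩
      · simp
      · simp
    · rw [if_neg h, if_neg (by omega), if_neg (by omega)]
      simp
  | h2 f g hf hg =>
    rw [map_add, map_add, hf, hg, DB_add, DB_add]
    ring

theorem eval_hc2 (f : P2) (p : Fin 2 → ℂ) :
    eval p (homogeneousComponent 2 f) = cf 2 0 f * p 0 ^ 2 + cf 1 1 f * (p 0 * p 1) + cf 0 2 f * p 1 ^ 2 := by
  induction f using DB_ind with
  | h1 a b c =>
    rw [RA_hc, DB_cfm, DB_cfm, DB_cfm]
    by_cases h : 2 = a + b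
    · have h2 : (a = 2 ∧ b = 0) ∨ (a = 1 ∧ b = 1) ∨ (a = 0 ∧ b = 2) := by omega
      rcases h2 with ⟨rfl, rfl⟩ | ⟨rfl, rfl⟩ | ⟨rfl, rfl⟩
      · simp
      · simp
        ring
      · simp
    · rw [if_neg h, if_neg (by omega), if_neg (by omega), if_neg (by omega)]
      simp
  | h2 f g hf hg =>
    rw [map_add, map_add, hf, hg, DB_add, DB_add, DB_add]
    ring

theorem RA_hc0 (f : P2) (p : Fin 2 → ℂ) : eval p (homogeneousComponent 0 f) = eval 0 f := by
  induction f using DB_ind with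
  | h1 a b c =>
    rw [RA_hc]
    by_cases h : 0 = a + b
    · have h2 : a = 0 ∧ b = 0 := by omega
      obtain ⟨rfl, rfl⟩ := h2
      simp
    · rw [if_neg h]
      have h2 : a ≠ 0 ∨ b ≠ 0 := by omega
      rcases h2 with h2 | h2
      · simp [h2]
      · simp [h2]
  | h2 f g hf hg => rw [map_add, map_add, hf, hg, map_add]

theorem RA_00 (f : P2) : cf 0 0 f = eval 0 f := by
  induction f using DB_ind with
  | h1 a b c =>
    rw [DB_cfm]
    by_cases h : a = 0 ∧ b = 0
    · rw [if_pos h, h.1, h.2]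
      simp
    · rw [if_neg h]
      have h2 : a ≠ 0 ∨ b ≠ 0 := by omega
      rcases h2 with h2 | h2
      · simp [h2]
      · simp [h2]
  | h2 f g hf hg => rw [DB_add, hf, hg, map_add]

theorem lj_of_ne (A B : P2) (h : eval 0 A ≠ 0 ∨ eval 0 B ≠ 0) : LJ A B := by
  refine ⟨0, by simp, by simp, fun p h1 h2 => ?_⟩
  rw [RA_hc0] at h1 h2
  rcases h with h | h
  · exact absurd h1 h
  · exact absurd h2 h

theorem lj_of_det (A B : P2) (hA : eval 0 A = 0) (hB : eval 0 B = 0)
    (hdet : cf 1 0 A * cf 0 1 B - cf 0 1 A * cf 1 0 B ≠ 0) : LJ A B := by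
  have hm : ∀ f : P2, eval 0 f = 0 → f ∈ mI ^ 1 := by
    intro f hf
    rw [DB_mem]
    intro i j hij
    have h1 : i = 0 := by omega
    have h2 : j = 0 := by omega
    rw [h1, h2, RA_00, hf]
  refine ⟨1, hm A hA, hm B hB, fun p h1 h2 => ?_⟩
  rw [eval_hc1] at h1 h2
  have e0 : (cf 1 0 A * cf 0 1 B - cf 0 1 A * cf 1 0 B) * p 0 = 0 := by
    linear_combination cf 0 1 B * h1 - cf 0 1 A * h2
  have e1 : (cf 1 0 A * cf 0 1 B - cf 0 1 A * cf 1 0 B) * p 1 = 0 := by
    linear_combination cf 1 0 A * h2 - cf 1 0 B * h1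
  have f0 : p 0 = 0 := (mul_eq_zero.1 e0).resolve_left hdet
  have f1 : p 1 = 0 := (mul_eq_zero.1 e1).resolve_left hdet
  funext i
  fin_cases i
  · exact f0
  · exact f1

theorem lj_two (A B : P2) (hA : A ∈ mI ^ 2) (hB : B ∈ mI ^ 2)
    (h : ∀ x y : ℂ, cf 2 0 A * x ^ 2 + cf 1 1 A * (x * y) + cf 0 2 A * y ^ 2 = 0 →
      cf 2 0 B * x ^ 2 + cf 1 1 B * (x * y) + cf 0 2 B * y ^ 2 = 0 → x = 0 ∧ y = 0) : LJ A B := by
  refine ⟨2, hA, hB, fun p h1 h2 => ?_⟩
  rw [eval_hc2] at h1 h2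
  obtain ⟨f0, f1⟩ := h _ _ h1 h2
  funext i
  fin_cases i
  · exact f0
  · exact f1

end FC76
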