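import Pool.Agent.H76.FC.DE
import Pool.Agent.H76.FC.DF
import Pool.Agent.H76.FC.DG
import Pool.Agent.H76.FC.RA

/-!
# Row RB: one blow-up at a point of order nu >= 2

Let A, B in m^nu, one of them not in m^(nu+1), nu >= 2, MultLe A B K, and IH: every vector field of multiplicity bound K' < K is in G.
Claim: G A B.

Put bl c A = x^nu A', bl c B = x^nu B' (`bl_dvd`).  Noether (`noether`): nu^2 <= K and MultLe A' B' (K - nu^2).
Let D := B' - (X 1 + C c) A'.  span {A', D} = span {A', B'}, so MultLe A' D (K - nu^2) (`MultLe.of_mem`).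
By `bl_quot_cf`, D(0,u) is the polynomial T(u + c) where
   T(t) = sum_{i<=nu} cf (nu-i) i B t^i - t * sum_{i<=nu} cf (nu-i) i A t^i        (degree <= nu+1, independent of c).
CASE T ≠ 0 (non dicritical), e := nu - 1:  A1 := X 0 * A', C1 := D:  BlTo A B c (nu-1) A1 C1:
   x^(nu-1) * (x A') = bl c A;  x^nu * D = bl c B - (X 1 + C c) bl c A.
   D(0,u) = T(u+c) is a nonzero polynomial of degree <= nu+1, so cf 0 i D ≠ 0 for some i <= nu+1: MultLe (X 0) D i (`multLe_X`), hence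
   MultLe (X 0 * A') D (nu + 1 + (K - nu^2)) (`MultLe.mul`, `MultLe.mono`), and nu + 1 + K - nu^2 < K because nu^2 >= nu + 2 (nu >= 2).
   IH: G A1 C1, so GE A1 C1 (toE).
CASE T = 0 (dicritical), e := nu:  D(0,u) = 0, so D = X 0 * D1 (`dvd_X0_iff`).  A1 := A', C1 := D1:  BlTo A B c nu A1 C1.
   MultLe A' D (K - nu^2) and D in span {A', D1}, so MultLe A' D1 (K - nu^2) (`MultLe.of_mem`), K - nu^2 < K (K >= nu^2 >= 4). IH.
The chart at infinity: apply the same construction to the vector field (sw B, sw A) at c = 0: it satisfies the same hypotheses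
(`sw_mem`, `sw_sw`, `MultLe.sw`) and its polynomial is T~(t) = sum cf (nu-i) i (sw A) t^i - t sum cf (nu-i) i (sw B) t^i with
cf (nu-i) i (sw A) = cf i (nu-i) A: T~(t) = - t^(nu+1) T(1/t) (reversal), so T~ = 0 iff T = 0: coefficient of t^j in T is
 cf (nu-j) j B - cf (nu-j+1) (j-1) A, and of t^(nu+1-j) in T~ is minus that.  State an auxiliary lemma for a general vector field
 (with a predicate 'all coefficients cf (nu-j) j B = cf (nu+1-j) (j-1) A ...' = dicritical) and use it twice.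
Conclude with `ResClosed.blow` with this e.
-/

open MvPolynomial

namespace FC76

/-- the polynomial f_nu(1, t) of the homogeneous component of degree nu -/
noncomputable def RB_P (f : P2) (ν : ℕ) : Polynomial ℂ :=
  ∑ i ∈ Finset.range (ν + 1), Polynomial.monomial i (cf (ν - i) i f)

/-- the tangent cone polynomial -/
noncomputable def RB_T (A B : P2) (ν : ℕ) : Polynomial ℂ :=
  RB_P B ν - Polynomial.X * RB_P A ν

theorem RB_P_coeff (f : P2) (ν j : ℕ) :
    (RB_P f ν).coeff j = if j ≤ ν then cf (ν - j) j f else 0 := by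
  unfold RB_P
  rw [Polynomial.finsetSum_coeff]
  simp only [Polynomial.coeff_monomial]
  rw [Finset.sum_ite_eq' (Finset.range (ν + 1)) j (fun i => cf (ν - i) i f)]
  simp only [Finset.mem_range, Nat.lt_succ_iff]

theorem RB_P_natDegree (f : P2) (ν : ℕ) : (RB_P f ν).natDegree ≤ ν := by
  rw [Polynomial.natDegree_le_iff_coeff_eq_zero]
  intro N hN
  rw [RB_P_coeff, if_neg (by omega)]

theorem RB_T_natDegree (A B : P2) (ν : ℕ) : (RB_T A B ν).natDegree ≤ ν + 1 := by
  unfold RB_T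
  refine (Polynomial.natDegree_sub_le _ _).trans ?_
  refine max_le ((RB_P_natDegree B ν).trans (by omega)) ?_
  refine Polynomial.natDegree_mul_le.trans ?_
  have h1 := RB_P_natDegree A ν
  have h2 : (Polynomial.X : Polynomial ℂ).natDegree ≤ 1 := Polynomial.natDegree_X_le
  omega

theorem RB_T_coeff_zero (A B : P2) (ν : ℕ) : (RB_T A B ν).coeff 0 = cf ν 0 B := by
  unfold RB_T
  rw [Polynomial.coeff_sub, Polynomial.coeff_X_mul_zero, sub_zero, RB_P_coeff,
    if_pos (Nat.zero_le _), Nat.sub_zero]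

theorem RB_T_coeff_succ (A B : P2) (ν j : ℕ) : (RB_T A B ν).coeff (j + 1) =
    (if j + 1 ≤ ν then cf (ν - (j + 1)) (j + 1) B else 0) -
      (if j ≤ ν then cf (ν - j) j A else 0) := by
  unfold RB_T
  rw [Polynomial.coeff_sub, Polynomial.coeff_X_mul, RB_P_coeff, RB_P_coeff]

/-- the exchange of the variables reverses the tangent cone polynomial -/
theorem RB_T_sw (A B : P2) (ν : ℕ) (h : RB_T A B ν = 0) : RB_T (sw B) (sw A) ν = 0 := by
  ext j
  rw [Polynomial.coeff_zero]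
  rcases j with _ | j
  · rw [RB_T_coeff_zero, cf_sw]
    have h1 : (RB_T A B ν).coeff (ν + 1) = 0 := by rw [h, Polynomial.coeff_zero]
    rw [RB_T_coeff_succ, if_neg (by omega), if_pos le_rfl, Nat.sub_self, zero_sub,
      neg_eq_zero] at h1
    exact h1
  · rw [RB_T_coeff_succ]
    by_cases hj : j + 1 ≤ ν
    · rw [if_pos hj, if_pos (by omega), cf_sw, cf_sw]
      have h1 : (RB_T A B ν).coeff ((ν - (j + 1)) + 1) = 0 := by rw [h, Polynomial.coeff_zero]
      rw [RB_T_coeff_succ, if_pos (by omega), if_pos (by omega)] at h1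
      have e1 : ν - (ν - (j + 1) + 1) = j := by omega
      have e2 : ν - (j + 1) + 1 = ν - j := by omega
      have e3 : ν - (ν - (j + 1)) = j + 1 := by omega
      rw [e1, e2, e3] at h1
      rw [← neg_eq_zero, neg_sub]
      exact h1
    · rw [if_neg hj]
      by_cases hj2 : j ≤ ν
      · have hjν : j = ν := by omega
        subst hjν
        rw [if_pos le_rfl, Nat.sub_self, cf_sw, zero_sub, neg_eq_zero]
        have h1 : (RB_T A B j).coeff 0 = 0 := by rw [h, Polynomial.coeff_zero]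
        rwa [RB_T_coeff_zero] at h1
      · rw [if_neg hj2, sub_zero]

theorem RB_taylor (c : ℂ) (f g : P2) (k : ℕ) (hf : f ∈ mI ^ k) (hg : bl c f = X 0 ^ k * g)
    (j : ℕ) : cf 0 j g = (Polynomial.taylor c (RB_P f k)).coeff j := by
  rw [bl_quot_cf c f g k hf hg j]
  unfold RB_P
  rw [map_sum, Polynomial.finsetSum_coeff]
  refine Finset.sum_congr rfl ?_
  intro i _
  rw [Polynomial.taylor_monomial, Polynomial.coeff_C_mul, Polynomial.coeff_X_add_C_pow]
  ring

theorem RB_cf_X1_mul (i j : ℕ) (f : P2) : cf i (j + 1) (X 1 * f) = cf i j f := by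
  have h1 : (X 1 * f : P2) = sw (X 0 * sw f) := by
    rw [map_mul, sw_sw]
    have : sw (X 0) = (X 1 : P2) := by
      unfold sw
      simp
    rw [this]
  rw [h1, cf_sw, cf_X0_mul, cf_sw]

theorem RB_cf_X1_mul_zero (i : ℕ) (f : P2) : cf i 0 (X 1 * f) = 0 := by
  have h1 : (X 1 * f : P2) = sw (X 0 * sw f) := by
    rw [map_mul, sw_sw]
    have : sw (X 0) = (X 1 : P2) := by
      unfold sw
      simp
    rw [this]
  rw [h1, cf_sw, cf_zero_X0_mul]

theorem RB_cf_sub (i j : ℕ) (f g : P2) : cf i j (f - g) = cf i j f - cf i j g := by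
  unfold cf
  rw [coeff_sub]

theorem RB_cf_add (i j : ℕ) (f g : P2) : cf i j (f + g) = cf i j f + cf i j g := by
  unfold cf
  rw [coeff_add]

theorem RB_cf_C_mul (i j : ℕ) (c : ℂ) (g : P2) : cf i j (C c * g) = c * cf i j g := by
  unfold cf
  rw [coeff_C_mul]

theorem RB_cfD (c : ℂ) (A B A' B' : P2) (ν : ℕ) (hA : A ∈ mI ^ ν) (hB : B ∈ mI ^ ν)
    (hA' : bl c A = X 0 ^ ν * A') (hB' : bl c B = X 0 ^ ν * B') (j : ℕ) :
    cf 0 j (B' - (X 1 + C c) * A') = (Polynomial.taylor c (RB_T A B ν)).coeff j := by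
  unfold RB_T
  rw [map_sub, Polynomial.coeff_sub, Polynomial.taylor_mul, Polynomial.taylor_X, add_mul, add_mul,
    Polynomial.coeff_add, Polynomial.coeff_C_mul, RB_cf_sub, RB_cf_add, RB_cf_C_mul,
    RB_taylor c B B' ν hB hB' j, RB_taylor c A A' ν hA hA' j]
  rcases j with _ | j
  · rw [RB_cf_X1_mul_zero, Polynomial.coeff_X_mul_zero]
  · rw [RB_cf_X1_mul, Polynomial.coeff_X_mul, RB_taylor c A A' ν hA hA' j]

theorem RB_aux {G GE : P2 → P2 → Prop} (h : ResClosed G GE) (A B : P2) (ν K : ℕ) (hν : 2 ≤ ν)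
    (hA : A ∈ mI ^ ν) (hB : B ∈ mI ^ ν) (hmin : A ∉ mI ^ (ν + 1) ∨ B ∉ mI ^ (ν + 1))
    (hK : MultLe A B K) (IH : ∀ K' < K, ∀ A B : P2, MultLe A B K' → G A B) (c : ℂ) :
    (RB_T A B ν ≠ 0 → ∃ A1 C1, BlTo A B c (ν - 1) A1 C1 ∧ GE A1 C1) ∧
      (RB_T A B ν = 0 → ∃ A1 C1, BlTo A B c ν A1 C1 ∧ GE A1 C1) := by
  obtain ⟨A', hA'⟩ := bl_dvd c A ν hA
  obtain ⟨B', hB'⟩ := bl_dvd c B ν hB
  obtain ⟨h1, h2⟩ := noether A B A' B' ν K c hA hB hmin hA' hB' hK
  have hsq : ν + 2 ≤ ν ^ 2 := by nlinarith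
  have hcf := RB_cfD c A B A' B' ν hA hB hA' hB'
  obtain ⟨D, hDdef⟩ : ∃ D : P2, D = B' - (X 1 + C c) * A' := ⟨_, rfl⟩
  rw [← hDdef] at hcf
  have hD : MultLe A' D (K - ν ^ 2) := by
    refine h2.of_mem (Ideal.subset_span (by simp)) ?_
    have hB2 : B' = D + (X 1 + C c) * A' := by rw [hDdef]; ring
    rw [hB2]
    exact Ideal.add_mem _ (Ideal.subset_span (by simp))
      (Ideal.mul_mem_left _ _ (Ideal.subset_span (by simp)))
  have hblB : bl c B - (X 1 + C c) * bl c A = X 0 ^ ν * D := by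
    rw [hA', hB', hDdef]; ring
  constructor
  · intro hT
    refine ⟨X 0 * A', D, ⟨?_, ?_⟩, ?_⟩
    · rw [hA', ← mul_assoc, ← pow_succ, Nat.sub_add_cancel (by omega : 1 ≤ ν)]
    · rw [hblB, Nat.sub_add_cancel (by omega : 1 ≤ ν)]
    · have hT2 : Polynomial.taylor c (RB_T A B ν) ≠ 0 := by
        intro h0
        apply hT
        apply Polynomial.taylor_injective c
        rw [h0, map_zero]
      have hdeg : (Polynomial.taylor c (RB_T A B ν)).natDegree ≤ ν + 1 := by
        rw [Polynomial.natDegree_taylor]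
        exact RB_T_natDegree A B ν
      have hne : cf 0 (Polynomial.taylor c (RB_T A B ν)).natDegree D ≠ 0 := by
        rw [hcf]
        exact Polynomial.leadingCoeff_ne_zero.mpr hT2
      have hX : MultLe (X 0) D (ν + 1) := (multLe_X D _ hne).mono hdeg
      have hm : MultLe (X 0 * A') D (ν + 1 + (K - ν ^ 2)) := hX.mul hD
      exact h.toE _ _ (IH _ (by omega) _ _ hm)
  · intro hT
    have hdvd : X 0 ∣ D := by
      rw [dvd_X0_iff]
      intro j
      rw [hcf, hT, map_zero, Polynomial.coeff_zero]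
    obtain ⟨D1, hD1⟩ := hdvd
    refine ⟨A', D1, ⟨hA'.symm, ?_⟩, ?_⟩
    · rw [hblB, hD1]; ring
    · have hm : MultLe A' D1 (K - ν ^ 2) := by
        refine hD.of_mem (Ideal.subset_span (by simp)) ?_
        rw [hD1]
        exact Ideal.mul_mem_left _ _ (Ideal.subset_span (by simp))
      exact h.toE _ _ (IH _ (by omega) _ _ hm)

theorem res_order_ge_two {G GE : P2 → P2 → Prop} (h : ResClosed G GE) (A B : P2) (ν K : ℕ) (hν : 2 ≤ ν)
    (hA : A ∈ mI ^ ν) (hB : B ∈ mI ^ ν) (hmin : A ∉ mI ^ (ν + 1) ∨ B ∉ mI ^ (ν + 1))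
    (hK : MultLe A B K) (IH : ∀ K' < K, ∀ A B : P2, MultLe A B K' → G A B) : G A B := by
  have hsw : ∀ f : P2, f ∉ mI ^ (ν + 1) → sw f ∉ mI ^ (ν + 1) := by
    intro f hf h1
    apply hf
    have := sw_mem _ _ h1
    rwa [sw_sw] at this
  have hmin2 : sw B ∉ mI ^ (ν + 1) ∨ sw A ∉ mI ^ (ν + 1) := by
    rcases hmin with h1 | h1
    · exact Or.inr (hsw A h1)
    · exact Or.inl (hsw B h1)
  have hA2 := sw_mem _ _ hA
  have hB2 := sw_mem _ _ hB
  by_cases hT : RB_T A B ν = 0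
  · exact h.blow A B ν (fun c => (RB_aux h A B ν K hν hA hB hmin hK IH c).2 hT)
      ((RB_aux h (sw B) (sw A) ν K hν hB2 hA2 hmin2 hK.sw IH 0).2 (RB_T_sw A B ν hT))
  · have hT2 : RB_T (sw B) (sw A) ν ≠ 0 := by
      intro h0
      apply hT
      have := RB_T_sw _ _ ν h0
      rwa [sw_sw, sw_sw] at this
    exact h.blow A B (ν - 1) (fun c => (RB_aux h A B ν K hν hA hB hmin hK IH c).1 hT)
      ((RB_aux h (sw B) (sw A) ν K hν hB2 hA2 hmin2 hK.sw IH 0).1 hT2)

end FC76
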