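import Pool.Agent.H76.FC.DE
import Pool.Agent.H76.FC.DF
import Pool.Agent.H76.FC.DG
import Pool.Agent.H76.FC.RA

/-!
# Row RC: the chain of blow-ups at a saddle-node (x^m a, B)

`snChain`: for all K, m >= 1, a, B with MultLe a B K, B(0) = 0, tau := cf 0 1 B ≠ 0:  GE (X 0 ^ m * a) B.
Induction on K (strong), for all m, a, B.
* a(0) ≠ 0, m = 1: the linear part of (x a, B) has determinant a(0) tau ≠ 0: `lj_of_det`, G, toE.
* a(0) ≠ 0, m >= 2: `ResClosed.sn`.
* a(0) = 0.  beta := cf 1 0 B.  We use toE (blow (x^m a) B 0 ...) i.e. e = 0.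
  Chart c:  bl c a = x a' (`bl_dvd`, k = 1), bl c B = x B'.  A1 := bl c (x^m a) = x^m * (x a') = x^(m+1) a';
   C1 := B' - (X 1 + C c) x^m a'  (x C1 = bl c B - (X 1 + C c) bl c A).  By `bl_quot_cf` (k = 1): cf 0 0 B' = beta + tau c, cf 0 1 B' = tau;
   since m >= 1 the same holds for C1: cf 0 0 C1 = beta + tau c, cf 0 1 C1 = tau (x^m divides the correction).
   If beta + tau c ≠ 0: `lj_of_ne` (eval 0 C1 ≠ 0).  If = 0: Noether with nu = 1 for (a, B) (B not in m^2 as cf 0 1 B ≠ 0):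
   1 <= K and MultLe a' B' (K-1); B' in span {a', C1}, a' too, so MultLe a' C1 (K-1) (`MultLe.of_mem`), and the induction hypothesis
   with m+1 gives GE (x^(m+1) a') C1.
  Chart at infinity: the field is (sw B, sw A), A = x^m a, c = 0.  A1 := bl 0 (sw B), C1 with x C1 = bl 0 (sw A) - y bl 0 (sw B).
   bl 0 (sw A) = (x y)^m bl 0 (sw a) and bl 0 (sw a) is divisible by x (sw a in m); bl 0 (sw B) = x b', b'(0,0) = cf 1 0 (sw B) = tau.
   So C1 = x^m y^m a'' - y b' with bl 0 (sw a) = x a'' .  Linear parts: cf 1 0 A1 = tau, cf 0 1 A1 = 0 (A1 = x b'); cf 0 1 C1 = - tau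
   (x^m y^m a'' is in m^2).  Determinant - tau^2 ≠ 0, C1(0)=0: `lj_of_det`.
   (Use `cf_bl0`, `cf_sw`, `cf_X0_mul` for the coefficients.)
-/

open MvPolynomial

namespace FC76

theorem RC_cf_sub (i j : ℕ) (f g : P2) : cf i j (f - g) = cf i j f - cf i j g := by
  simp [cf]

theorem RC_cf_X1 (i j : ℕ) (f : P2) : cf i (j + 1) (X 1 * f) = cf i j f := by
  have h1 : sw (X 1 * f) = X 0 * sw f := by
    rw [map_mul]
    congr 1
    simp [sw]
  rw [← cf_sw (j + 1) i, h1, cf_X0_mul, cf_sw]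

theorem RC_cf_X1_zero (i : ℕ) (f : P2) : cf i 0 (X 1 * f) = 0 := by
  have h1 : sw (X 1 * f) = X 0 * sw f := by
    rw [map_mul]
    congr 1
    simp [sw]
  rw [← cf_sw 0 i, h1, cf_zero_X0_mul]

theorem RC_bl_X0 (c : ℂ) : bl c (X 0) = X 0 := by simp [bl]

theorem RC_bl_X1 (c : ℂ) : bl c (X 1) = X 0 * (X 1 + C c) := by simp [bl]

theorem RC_sw_X0 : sw (X 0) = X 1 := by simp [sw]

theorem RC_cf_pow (m j : ℕ) (hm : 1 ≤ m) (f : P2) : cf 0 j (X 0 ^ m * f) = 0 := by
  obtain ⟨k, rfl⟩ : ∃ k, m = k + 1 := ⟨m - 1, by omega⟩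
  rw [pow_succ', mul_assoc, cf_zero_X0_mul]

theorem snChain {G GE : P2 → P2 → Prop} (h : ResClosed G GE) :
    ∀ (K m : ℕ) (a B : P2), 1 ≤ m → MultLe a B K → eval 0 B = 0 → cf 0 1 B ≠ 0 → GE (X 0 ^ m * a) B := by
  intro K
  induction K using Nat.strong_induction_on with
  | _ K ih =>
    intro m a B hm hK hB0 hτ
    by_cases ha0 : eval 0 a = 0
    · -- the blow-up
      have hBm : B ∈ mI ^ 1 := by rw [mem_mI_iff, ← eval_zero_eq_cf]; exact hB0
      have ham : a ∈ mI ^ 1 := by rw [mem_mI_iff, ← eval_zero_eq_cf]; exact ha0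
      have hB2 : B ∉ mI ^ 2 := fun hc => hτ ((mem_mI2_iff B).1 hc).2.2
      refine h.toE _ _ (h.blow _ _ 0 (fun c => ?_) ?_)
      · obtain ⟨a', ha'⟩ := bl_dvd c a 1 ham
        obtain ⟨B', hB'⟩ := bl_dvd c B 1 hBm
        have e1 : bl c (X 0 ^ m * a) = X 0 ^ (m + 1) * a' := by
          rw [map_mul, map_pow, RC_bl_X0, ha']
          ring
        refine ⟨X 0 ^ (m + 1) * a', B' - (X 1 + C c) * (X 0 ^ m * a'), ⟨?_, ?_⟩, ?_⟩
        · rw [e1, pow_zero, one_mul]
        · rw [e1, hB']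
          ring
        · have c1 : ∀ j, cf 0 j ((X 1 + C c) * (X 0 ^ m * a')) = 0 := by
            intro j
            rw [mul_left_comm]
            exact RC_cf_pow m j hm _
          have c2 := bl_quot_cf c B B' 1 hBm hB' 1
          rw [Finset.sum_range_succ, Finset.sum_range_one] at c2
          simp only [Nat.choose_self, Nat.cast_one, mul_one, Nat.sub_self, pow_zero,
            Nat.choose_zero_succ, Nat.cast_zero, mul_zero, zero_mul, zero_add] at c2
          set C1 := B' - (X 1 + C c) * (X 0 ^ m * a') with hC1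
          have c3 : cf 0 1 C1 = cf 0 1 B := by
            rw [hC1, RC_cf_sub, c1, sub_zero, c2]
          by_cases hC0 : eval 0 C1 = 0
          · have hN := noether a B a' B' 1 K c ham hBm (Or.inr hB2) ha' hB' hK
            obtain ⟨hN1, hN2⟩ := hN
            have hM : MultLe a' C1 (K - 1 ^ 2) := by
              refine hN2.of_mem (Ideal.subset_span (by simp)) ?_
              rw [Ideal.mem_span_pair]
              refine ⟨(X 1 + C c) * X 0 ^ m, 1, ?_⟩
              rw [hC1]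
              ring
            exact ih (K - 1 ^ 2) (by omega) (m + 1) a' C1 (by omega) hM hC0 (by rw [c3]; exact hτ)
          · exact h.toE _ _ (h.lj _ _ (lj_of_ne _ _ (Or.inr hC0)))
      · have hBs : sw B ∈ mI ^ 1 := sw_mem B 1 hBm
        have has : sw a ∈ mI ^ 1 := sw_mem a 1 ham
        obtain ⟨b', hb'⟩ := bl_dvd 0 (sw B) 1 hBs
        obtain ⟨a', ha'⟩ := bl_dvd 0 (sw a) 1 has
        have e1 : bl 0 (sw (X 0 ^ m * a)) = (X 0 * (X 1 + C 0)) ^ m * (X 0 ^ 1 * a') := by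
          rw [map_mul, map_mul, map_pow, map_pow, RC_sw_X0, RC_bl_X1, ha']
        obtain ⟨k, rfl⟩ : ∃ k, m = k + 1 := ⟨m - 1, by omega⟩
        refine ⟨X 0 * b', (X 0 * (X 1 + C 0)) ^ (k + 1) * a' - (X 1 + C 0) * b', ⟨?_, ?_⟩, ?_⟩
        · rw [hb', pow_zero, one_mul, pow_one]
        · rw [e1, hb']
          ring
        · have c2 := bl_quot_cf 0 (sw B) b' 1 hBs hb' 0
          rw [Finset.sum_range_succ, Finset.sum_range_one] at c2
          simp only [Nat.choose_zero_right, Nat.cast_one, mul_one, Nat.sub_self, Nat.sub_zero,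
            pow_zero, pow_one, mul_zero, add_zero, cf_sw] at c2
          have c3 : ∀ j, cf 0 j ((X 0 * (X 1 + C 0)) ^ (k + 1) * a') = 0 := by
            intro j
            rw [pow_succ', mul_assoc, mul_assoc, cf_zero_X0_mul]
          have c4 : (X 1 + C 0 : P2) * b' = X 1 * b' := by
            rw [C_0, add_zero]
          refine h.toE _ _ (h.lj _ _ (lj_of_det _ _ ?_ ?_ ?_))
          · rw [eval_zero_eq_cf, cf_zero_X0_mul]
          · rw [eval_zero_eq_cf, RC_cf_sub, c3, c4, RC_cf_X1_zero, sub_zero]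
          · rw [cf_zero_X0_mul, zero_mul, sub_zero, RC_cf_sub, c3, c4, RC_cf_X1, cf_X0_mul, c2]
            rw [zero_sub, mul_neg]
            exact neg_ne_zero.2 (mul_ne_zero hτ hτ)
    · rcases Nat.lt_or_ge m 2 with h2 | h2
      · have hm1 : m = 1 := by omega
        subst hm1
        rw [pow_one]
        refine h.toE _ _ (h.lj _ _ (lj_of_det _ _ ?_ hB0 ?_))
        · rw [eval_zero_eq_cf, cf_zero_X0_mul]
        · rw [cf_zero_X0_mul, zero_mul, sub_zero, cf_X0_mul, ← eval_zero_eq_cf]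
          exact mul_ne_zero ha0 hτ
      · exact h.sn m a B h2 ha0 hB0 hτ

end FC76
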