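import Pool.Agent.H76.FC.RC

/-!
# Row RD: linear part of rank one with nonzero trace (saddle-nodes)

A, B vanish at 0; p = cf 1 0 A, q = cf 0 1 A, r = cf 1 0 B, s = cf 0 1 B;  p s - q r = 0, tau := p + s ≠ 0; MultLe A B K.  Claim: G A B.
AUX (for every c): there are A1, C1 with BlTo A B c 0 A1 C1 and GE A1 C1.
 Proof.  bl c A = x A', bl c B = x B' (`bl_dvd`), A1 := bl c A = x A', C1 := B' - (X 1 + C c) A'.  By `bl_quot_cf` (k = 1):
   A'(0,u) = p + q (u+c), B'(0,u) = r + s (u+c), so cf 0 0 C1 = r + s c - c (p + q c) =: chi, cf 0 1 C1 = s - p - 2 q c, cf 0 0 A' = p + q c =: l.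
   * chi ≠ 0: eval 0 C1 ≠ 0: `lj_of_ne`, toE.
   * chi = 0: (1,c) is an eigenvector of [[p,q],[r,s]] with eigenvalue l, so l^2 - tau l + det = 0, det = 0: l = 0 or l = tau
     (algebra: l (l - tau) = (p+qc)(qc - s) = ... = - q (r + s c - c p - q c^2) - (p s - q r) = 0).  cf 0 1 C1 = tau - 2 l.
     - l = tau: cf 1 0 A1 = l = tau, cf 0 1 A1 = 0, cf 0 1 C1 = - tau: determinant - tau^2 ≠ 0: `lj_of_det`.
     - l = 0: cf 0 1 C1 = tau ≠ 0, C1(0)=0.  MultLe A' B' (K-1) by Noether (nu = 1; A or B is not in m^2 as p + s ≠ 0), so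
       MultLe A' C1 (K-1) (`MultLe.of_mem`) and `snChain` with m = 1: GE (X 0 ^ 1 * A') C1.
Then blow with e = 0; the chart at infinity is AUX for the field (sw B, sw A) (linear part [[s, r],[q, p]], same trace and
determinant, `cf_sw`, `MultLe.sw`) with c = 0.
-/

open MvPolynomial

namespace FC76

theorem RD_X1 (f : P2) : cf 0 1 (X 1 * f) = cf 0 0 f := by
  unfold cf
  rw [Finsupp.single_zero, zero_add, Finsupp.single_zero, add_zero]
  have h := coeff_X_mul (0 : Fin 2 →₀ ℕ) (1 : Fin 2) f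
  rw [add_comm, zero_add] at h
  exact h

theorem RD_sub (i j : ℕ) (f g : P2) : cf i j (f - g) = cf i j f - cf i j g := by
  unfold cf
  rw [coeff_sub]

theorem RD_add (i j : ℕ) (f g : P2) : cf i j (f + g) = cf i j f + cf i j g := by
  unfold cf
  rw [coeff_add]

theorem RD_C (i j : ℕ) (c : ℂ) (f : P2) : cf i j (C c * f) = c * cf i j f := by
  unfold cf
  rw [coeff_C_mul]

theorem RD_aux {G GE : P2 → P2 → Prop} (h : ResClosed G GE) (A B : P2) (K : ℕ)
    (hA : eval 0 A = 0) (hB : eval 0 B = 0) (hK : MultLe A B K)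
    (hdet : cf 1 0 A * cf 0 1 B - cf 0 1 A * cf 1 0 B = 0) (htr : cf 1 0 A + cf 0 1 B ≠ 0) (c : ℂ) :
    ∃ A1 C1, BlTo A B c 0 A1 C1 ∧ GE A1 C1 := by
  have hA1 : A ∈ mI ^ 1 := (mem_mI_iff A).2 (by rw [← eval_zero_eq_cf]; exact hA)
  have hB1 : B ∈ mI ^ 1 := (mem_mI_iff B).2 (by rw [← eval_zero_eq_cf]; exact hB)
  obtain ⟨A', hA'⟩ := bl_dvd c A 1 hA1
  obtain ⟨B', hB'⟩ := bl_dvd c B 1 hB1
  have a0 : cf 0 0 A' = cf 1 0 A + cf 0 1 A * c := by
    rw [bl_quot_cf c A A' 1 hA1 hA' 0]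
    simp [Finset.sum_range_succ]
  have a1 : cf 0 1 A' = cf 0 1 A := by
    rw [bl_quot_cf c A A' 1 hA1 hA' 1]
    simp [Finset.sum_range_succ]
  have b0 : cf 0 0 B' = cf 1 0 B + cf 0 1 B * c := by
    rw [bl_quot_cf c B B' 1 hB1 hB' 0]
    simp [Finset.sum_range_succ]
  have b1 : cf 0 1 B' = cf 0 1 B := by
    rw [bl_quot_cf c B B' 1 hB1 hB' 1]
    simp [Finset.sum_range_succ]
  set C1 : P2 := B' - (X 1 + C c) * A' with hC1
  have c0 : eval 0 C1 = cf 1 0 B + cf 0 1 B * c - c * (cf 1 0 A + cf 0 1 A * c) := by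
    rw [hC1, map_sub, map_mul, map_add, eval_X, eval_C, eval_zero_eq_cf A', eval_zero_eq_cf B', a0, b0]
    simp
  have c1 : cf 0 1 C1 = cf 0 1 B - cf 1 0 A - 2 * cf 0 1 A * c := by
    rw [hC1, RD_sub, add_mul, RD_add, RD_X1, RD_C, a0, a1, b1]
    ring
  refine ⟨X 0 ^ 1 * A', C1, ⟨?_, ?_⟩, ?_⟩
  · rw [pow_zero, one_mul, hA']
  · rw [hA', hB', hC1]
    ring
  · by_cases hchi : eval 0 C1 = 0
    · have hA10 : eval 0 (X 0 ^ 1 * A') = 0 := by
        simp
      have hl : (cf 1 0 A + cf 0 1 A * c) * ((cf 1 0 A + cf 0 1 A * c) - (cf 1 0 A + cf 0 1 B)) = 0 := by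
        rw [c0] at hchi
        linear_combination (-cf 0 1 A) * hchi - hdet
      rcases mul_eq_zero.1 hl with h0 | h0
      · -- l = 0
        have hmin : A ∉ mI ^ (1 + 1) ∨ B ∉ mI ^ (1 + 1) := by
          by_contra hcon
          rw [not_or, not_not, not_not] at hcon
          have e1 := (mem_mI2_iff A).1 hcon.1
          have e2 := (mem_mI2_iff B).1 hcon.2
          apply htr
          rw [e1.2.1, e2.2.2, add_zero]
        have hN := (noether A B A' B' 1 K c hA1 hB1 hmin hA' hB' hK).2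
        have hM : MultLe A' C1 (K - 1 ^ 2) := by
          refine MultLe.of_mem hN (Ideal.subset_span (by simp)) ?_
          rw [Ideal.mem_span_pair]
          exact ⟨X 1 + C c, 1, by rw [hC1]; ring⟩
        refine snChain h _ 1 A' C1 le_rfl hM hchi ?_
        rw [c1]
        intro h9
        apply htr
        linear_combination h9 + 2 * h0
      · -- l = tau
        apply h.toE
        apply h.lj
        refine lj_of_det _ _ hA10 hchi ?_
        rw [pow_one, cf_X0_mul, cf_zero_X0_mul, zero_mul, sub_zero, a0, c1]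
        intro h9
        have h10 : (cf 1 0 A + cf 0 1 B) * (cf 1 0 A + cf 0 1 B) = 0 := by
          have e : cf 0 1 A * c = cf 0 1 B := by linear_combination h0
          have e' : 2 * cf 0 1 A * c = 2 * cf 0 1 B := by linear_combination 2 * e
          rw [e, e'] at h9
          linear_combination -h9
        exact htr (mul_self_eq_zero.1 h10)
    · exact h.toE _ _ (h.lj _ _ (lj_of_ne _ _ (Or.inr hchi)))

theorem res_saddleNode {G GE : P2 → P2 → Prop} (h : ResClosed G GE) (A B : P2) (K : ℕ)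
    (hA : eval 0 A = 0) (hB : eval 0 B = 0) (hK : MultLe A B K)
    (hdet : cf 1 0 A * cf 0 1 B - cf 0 1 A * cf 1 0 B = 0) (htr : cf 1 0 A + cf 0 1 B ≠ 0) : G A B := by
  refine h.blow A B 0 (fun c => RD_aux h A B K hA hB hK hdet htr c) ?_
  refine RD_aux h (sw B) (sw A) K ?_ ?_ (MultLe.sw hK) ?_ ?_ 0
  · rw [eval_zero_eq_cf, cf_sw, ← eval_zero_eq_cf]
    exact hB
  · rw [eval_zero_eq_cf, cf_sw, ← eval_zero_eq_cf]
    exact hA
  · rw [cf_sw, cf_sw, cf_sw, cf_sw]
    linear_combination hdet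
  · rw [cf_sw, cf_sw, add_comm]
    exact htr

end FC76
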