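import Pool.Agent.H76.FC.DE
import Pool.Agent.H76.FC.DF
import Pool.Agent.H76.FC.DG
import Pool.Agent.H76.FC.RA

/-!
# Row RE: the second blow-up in the nilpotent case

Z1 = (A1, C1) with A1 = X 0 * A', A'(0) = 0, cf 0 1 A' = q ≠ 0, C1(0) = 0, cf 0 1 C1 = 0, cf 0 2 C1 = - q.
So A1 = x (q u + alpha x + ...), C1 = beta0 x - q u^2 + beta1 x u + beta2 x^2 + ... , beta0 = cf 1 0 C1.
Claim: G A1 C1, provided IH holds for K' < K and MultLe A' C1 (K - 1), 1 <= K   (then MultLe A1 C1 (K+1)).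

CASE beta0 ≠ 0.  blow with e = 0 (`ResClosed.blow`).
 Chart c: bl c C1 = x C', bl c A1 = x^2 A'' (A1 in m^2), so C2 := C' - (X 1 + C c) x A''; cf 0 0 C2 = cf 0 0 C' = beta0 (`bl_quot_cf`, k=1:
   cf 1 0 C1 + cf 0 1 C1 c = beta0): eval 0 C2 ≠ 0: `lj_of_ne`.
 Infinity: field (sw C1, sw A1), c = 0: A2 := bl 0 (sw C1), C2 with x C2 = bl 0 (sw A1) - y bl 0 (sw C1) (divisible by x since both
   bl 0 (sw ..) are).  Coefficients by `cf_bl0`, `cf_sw`:  cf a b (bl 0 (sw f)) = cf b (a-b) f if b <= a, else 0.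
   A2: cf 0 0 = 0, cf 1 0 = cf 0 1 C1 = 0, cf 0 1 = 0, cf 2 0 = cf 0 2 C1 = -q, cf 1 1 = cf 1 0 C1 = beta0, cf 0 2 = 0.
   C2: cf a b C2 = cf (a+1) b (x C2) = cf (a+1) b (bl 0 (sw A1)) - cf (a+1) (b-1) (bl 0 (sw C1)) [second term 0 if b = 0].
     cf 0 0 C2 = cf 0 1 A1 = 0;  cf 1 0 C2 = cf 0 2 A1 = 0; cf 0 1 C2 = cf 1 0 A1 - cf 0 1 C1 = 0; cf 2 0 C2 = cf 0 3 A1 = 0;
     cf 1 1 C2 = cf 1 1 A1 - cf 0 2 C1 = q + q = 2 q;  cf 0 2 C2 = 0 - cf 1 0 C1 = - beta0   [cf 1 2 (bl 0 (sw A1)) = 0 as 2 > 1;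
     cf 1 1 (bl 0 (sw C1)) = beta0].
   `lj_two`: x (beta0 y - q x) = 0 and y (2 q x - beta0 y) = 0 imply x = y = 0 (q, beta0 ≠ 0).
CASE beta0 = 0.  A1, C1 in m^2, C1 not in m^3 (cf 0 2 C1 ≠ 0).  blow with e = 1.
 Chart c: bl c A1 = x^2 A'', bl c C1 = x^2 C''.  A2 := x A'', C2 := C'' - (X 1 + C c) A'': BlTo A1 C1 c 1 A2 C2.
   C2(0,u) = T(u+c), T(t) = sum_{i<=2} cf (2-i) i C1 t^i - t sum_{i<=2} cf (2-i) i A1 t^i, degree 2 with coefficient of t^2 equal to
   cf 0 2 C1 - cf 1 1 A1 = - 2 q (and cf 0 2 A1 = 0); so cf 0 2 C2 = - 2 q ≠ 0 and MultLe (X 0) C2 2 (`multLe_X`).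
   MultLe A1 C1 (K+1): `MultLe.mul` of MultLe (X 0) C1 2 and MultLe A' C1 (K-1).  Noether (nu = 2): 4 <= K+1, MultLe A'' C'' (K+1-4), so
   MultLe A'' C2 (K-3), MultLe (X 0 * A'') C2 (2 + (K-3)) = K - 1 < K: IH, toE.
 Infinity: field (sw C1, sw A1), c = 0, e = 1: A2, C2 with x A2 = bl 0 (sw C1), x^2 C2 = bl 0 (sw A1) - y bl 0 (sw C1).
   cf a b A2 = cf (a+1) b (bl 0 (sw C1)): cf 0 0 A2 = cf 0 1 C1 = 0, cf 1 0 A2 = cf 0 2 C1 = - q, cf 0 1 A2 = cf 1 0 C1 = 0.
   cf a b C2 = cf (a+2) b (bl 0 (sw A1)) - cf (a+2) (b-1) (bl 0 (sw C1)): cf 0 0 C2 = cf 0 2 A1 = 0; cf 0 1 C2 = cf 1 1 A1 - cf 0 2 C1 = 2 q;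
   cf 1 0 C2 = cf 0 3 A1 = 0.  Determinant (-q)(2q) ≠ 0: `lj_of_det`.
(all cf 0 j A1 vanish because A1 = X 0 * A'; cf 1 0 A1 = cf 0 0 A' = 0, cf 1 1 A1 = cf 0 1 A' = q.)
-/

open MvPolynomial

namespace FC76

private theorem RE_cf_sub (i j : ℕ) (f g : P2) : cf i j (f - g) = cf i j f - cf i j g := by
  simp [cf]

private theorem RE_cf_add (i j : ℕ) (f g : P2) : cf i j (f + g) = cf i j f + cf i j g := by
  simp [cf]

private theorem RE_cf_C (i j : ℕ) (c : ℂ) (f : P2) : cf i j (C c * f) = c * cf i j f := by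
  simp [cf, coeff_C_mul]

private theorem RE_cf_X1_succ (i j : ℕ) (f : P2) : cf i (j + 1) (X 1 * f) = cf i j f := by
  unfold cf
  have h : (Finsupp.single 0 i + Finsupp.single 1 (j + 1) : Fin 2 →₀ ℕ) =
      Finsupp.single 1 1 + (Finsupp.single 0 i + Finsupp.single 1 j) := by
    rw [Finsupp.single_add]
    abel
  rw [h, coeff_X_mul]

private theorem RE_cf_X1_zero (i : ℕ) (f : P2) : cf i 0 (X 1 * f) = 0 := by
  unfold cf
  rw [coeff_X_mul']
  rw [if_neg]
  simp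

private theorem RE_lin_zero (i : ℕ) (c : ℂ) (f : P2) :
    cf i 0 ((X 1 + C c) * f) = c * cf i 0 f := by
  rw [add_mul, RE_cf_add, RE_cf_X1_zero, RE_cf_C, zero_add]

private theorem RE_lin_succ (i j : ℕ) (c : ℂ) (f : P2) :
    cf i (j + 1) ((X 1 + C c) * f) = cf i j f + c * cf i (j + 1) f := by
  rw [add_mul, RE_cf_add, RE_cf_X1_succ, RE_cf_C]

/-- coefficients of the quotient of `bl 0 (sw f)` by `x` -/
private theorem RE_q1 {f g : P2} (h : bl 0 (sw f) = X 0 ^ 1 * g) (a b : ℕ) :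
    cf a b g = if b ≤ a + 1 then cf b (a + 1 - b) f else 0 := by
  rw [← cf_X0_mul a b g]
  rw [pow_one] at h
  rw [← h, cf_bl0]
  split_ifs
  · rw [cf_sw]
  · rfl

private theorem RE_q2 {f g : P2} (h : bl 0 (sw f) = X 0 ^ 2 * g) (a b : ℕ) :
    cf a b g = if b ≤ a + 2 then cf b (a + 2 - b) f else 0 := by
  rw [← cf_X0_mul a b g, ← cf_X0_mul (a + 1) b (X 0 * g)]
  have h' : bl 0 (sw f) = X 0 * (X 0 * g) := by rw [h]; ring
  rw [← h', cf_bl0]
  split_ifs
  · rw [cf_sw]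
  · rfl

private theorem RE_not_mem3 {f : P2} (h : cf 0 2 f ≠ 0) : f ∉ (mI ^ 3 : Ideal P2) := by
  intro hf
  rw [mem_pow_idealOfVars_iff'] at hf
  apply h
  unfold cf
  apply hf
  simp [Finsupp.degree_single]

theorem res_nilpotent_second {G GE : P2 → P2 → Prop} (h : ResClosed G GE) (A' C1 : P2) (K : ℕ) (q : ℂ)
    (hq : q ≠ 0) (hA0 : cf 0 0 A' = 0) (hA1 : cf 0 1 A' = q) (hC0 : cf 0 0 C1 = 0) (hC1 : cf 0 1 C1 = 0)
    (hC2 : cf 0 2 C1 = - q) (hK1 : 1 ≤ K) (hK : MultLe A' C1 (K - 1))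
    (IH : ∀ K' < K, ∀ A B : P2, MultLe A B K' → G A B) : G (X 0 * A') C1 := by
  obtain ⟨A1, hA1d⟩ : ∃ A1 : P2, A1 = X 0 * A' := ⟨_, rfl⟩
  rw [← hA1d]
  have a0 : ∀ j, cf 0 j A1 = 0 := fun j => by rw [hA1d, cf_zero_X0_mul]
  have a10 : cf 1 0 A1 = 0 := by rw [hA1d, cf_X0_mul, hA0]
  have a11 : cf 1 1 A1 = q := by rw [hA1d, cf_X0_mul, hA1]
  have mA : A1 ∈ (mI ^ 2 : Ideal P2) := (mem_mI2_iff A1).2 ⟨a0 0, a10, a0 1⟩
  have mA1 : A1 ∈ (mI ^ 1 : Ideal P2) := (mem_mI_iff A1).2 (a0 0)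
  have mC1 : C1 ∈ (mI ^ 1 : Ideal P2) := (mem_mI_iff C1).2 hC0
  by_cases hb : cf 1 0 C1 = 0
  · -- second case
    have mC : C1 ∈ (mI ^ 2 : Ideal P2) := (mem_mI2_iff C1).2 ⟨hC0, hb, hC1⟩
    have hC2' : cf 0 2 C1 ≠ 0 := by
      rw [hC2]
      exact neg_ne_zero.2 hq
    have hM : MultLe A1 C1 (K + 1) := by
      have h1 := (multLe_X C1 2 hC2').mul hK
      rw [← hA1d] at h1
      have e : 2 + (K - 1) = K + 1 := by omega
      rw [e] at h1
      exact h1
    refine h.blow A1 C1 1 ?_ ?_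
    · intro c
      obtain ⟨A'', hA''⟩ := bl_dvd c A1 2 mA
      obtain ⟨C'', hC''⟩ := bl_dvd c C1 2 mC
      refine ⟨X 0 * A'', C'' - (X 1 + C c) * A'', ⟨?_, ?_⟩, ?_⟩
      · rw [hA'']; ring
      · rw [hA'', hC'']; ring
      apply h.toE
      apply IH (K - 1) (by omega)
      obtain ⟨n1, n2⟩ := noether A1 C1 A'' C'' 2 (K + 1) c mA mC (Or.inr (RE_not_mem3 hC2'))
        hA'' hC'' hM
      have c2 : cf 0 2 (C'' - (X 1 + C c) * A'') ≠ 0 := by
        have e1 := bl_quot_cf c C1 C'' 2 mC hC'' 2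
        have e2 := bl_quot_cf c A1 A'' 2 mA hA'' 1
        have e3 := bl_quot_cf c A1 A'' 2 mA hA'' 2
        simp only [Finset.sum_range_succ, Finset.sum_range_zero] at e1 e2 e3
        norm_num [Nat.choose, a0, a11, hC2] at e1 e2 e3
        rw [RE_cf_sub, RE_lin_succ 0 1, e1, e2, e3, mul_zero, add_zero]
        intro h0
        apply hq
        have : (2 : ℂ) * q = 0 := by linear_combination - h0
        simpa using this
      have h3 : MultLe A'' (C'' - (X 1 + C c) * A'') (K + 1 - 2 ^ 2) := by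
        refine n2.of_mem (Ideal.subset_span (by simp)) ?_
        have e1 : C'' = (C'' - (X 1 + C c) * A'') + (X 1 + C c) * A'' := by ring
        have e2 : (C'' - (X 1 + C c) * A'') + (X 1 + C c) * A'' ∈
            Ideal.span ({A'', C'' - (X 1 + C c) * A''} : Set P2) :=
          Ideal.add_mem _ (Ideal.subset_span (by simp))
            (Ideal.mul_mem_left _ _ (Ideal.subset_span (by simp)))
        rw [← e1] at e2
        exact e2
      have h4 := (multLe_X _ 2 c2).mul h3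
      have e : 2 + (K + 1 - 2 ^ 2) = K - 1 := by omega
      rw [e] at h4
      exact h4
    · obtain ⟨g1, hg1⟩ := bl_dvd 0 (sw A1) 2 (sw_mem _ _ mA)
      obtain ⟨g2, hg2⟩ := bl_dvd 0 (sw C1) 2 (sw_mem _ _ mC)
      refine ⟨X 0 * g2, g1 - (X 1 + C 0) * g2, ⟨?_, ?_⟩, ?_⟩
      · rw [hg2]; ring
      · rw [hg1, hg2]; ring
      apply h.toE
      apply h.lj
      have q1 := RE_q2 hg1
      have q2 := RE_q2 hg2
      have v1 : cf 0 0 g2 = - q := by
        rw [q2 0 0, if_pos (by omega)]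
        exact hC2
      have v2 : cf 0 0 g1 = 0 := by
        rw [q1 0 0, if_pos (by omega)]
        exact a0 2
      have v3 : cf 0 1 g1 = q := by
        rw [q1 0 1, if_pos (by omega)]
        exact a11
      have v4 : cf 1 0 g1 = 0 := by
        rw [q1 1 0, if_pos (by omega)]
        exact a0 3
      have w1 : cf 0 0 (X 0 * g2) = 0 := cf_zero_X0_mul 0 g2
      have w2 : cf 0 1 (X 0 * g2) = 0 := cf_zero_X0_mul 1 g2
      have w3 : cf 1 0 (X 0 * g2) = - q := by rw [cf_X0_mul, v1]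
      have w4 : cf 0 0 (g1 - (X 1 + C 0) * g2) = 0 := by
        rw [RE_cf_sub, RE_lin_zero, v2]; ring
      have w5 : cf 0 1 (g1 - (X 1 + C 0) * g2) = 2 * q := by
        rw [RE_cf_sub, RE_lin_succ 0 0, v3, v1]; ring
      apply lj_of_det
      · rw [eval_zero_eq_cf]; exact w1
      · rw [eval_zero_eq_cf]; exact w4
      · rw [w2, w3, w5, zero_mul, sub_zero]
        exact mul_ne_zero (neg_ne_zero.2 hq) (mul_ne_zero two_ne_zero hq)
  · -- first case
    refine h.blow A1 C1 0 ?_ ?_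
    · intro c
      obtain ⟨A'', hA''⟩ := bl_dvd c A1 2 mA
      obtain ⟨C', hC'⟩ := bl_dvd c C1 1 mC1
      refine ⟨bl c A1, C' - (X 1 + C c) * (X 0 * A''), ⟨?_, ?_⟩, ?_⟩
      · rw [pow_zero, one_mul]
      · rw [hA'', hC']; ring
      apply h.toE
      apply h.lj
      apply lj_of_ne
      right
      rw [eval_zero_eq_cf, RE_cf_sub, RE_lin_zero, cf_zero_X0_mul, mul_zero, sub_zero]
      have e1 := bl_quot_cf c C1 C' 1 mC1 hC' 0
      simp only [Finset.sum_range_succ, Finset.sum_range_zero] at e1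
      norm_num [Nat.choose, hC1] at e1
      rw [e1]
      exact hb
    · obtain ⟨g1, hg1⟩ := bl_dvd 0 (sw A1) 1 (sw_mem _ _ mA1)
      obtain ⟨g2, hg2⟩ := bl_dvd 0 (sw C1) 1 (sw_mem _ _ mC1)
      refine ⟨X 0 * g2, g1 - (X 1 + C 0) * g2, ⟨?_, ?_⟩, ?_⟩
      · rw [hg2]; ring
      · rw [hg1, hg2]; ring
      apply h.toE
      apply h.lj
      have q1 := RE_q1 hg1
      have q2 := RE_q1 hg2
      have u00 : cf 0 0 g2 = 0 := by
        rw [q2 0 0, if_pos (by omega)]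
        exact hC1
      have u10 : cf 1 0 g2 = - q := by
        rw [q2 1 0, if_pos (by omega)]
        exact hC2
      have u01 : cf 0 1 g2 = cf 1 0 C1 := by
        rw [q2 0 1, if_pos (by omega)]
      have v00 : cf 0 0 g1 = 0 := by
        rw [q1 0 0, if_pos (by omega)]
        exact a0 1
      have v10 : cf 1 0 g1 = 0 := by
        rw [q1 1 0, if_pos (by omega)]
        exact a0 2
      have v01 : cf 0 1 g1 = 0 := by
        rw [q1 0 1, if_pos (by omega)]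
        exact a10
      have v20 : cf 2 0 g1 = 0 := by
        rw [q1 2 0, if_pos (by omega)]
        exact a0 3
      have v11 : cf 1 1 g1 = q := by
        rw [q1 1 1, if_pos (by omega)]
        exact a11
      have v02 : cf 0 2 g1 = 0 := by
        rw [q1 0 2, if_neg (by omega)]
      have w20 : cf 2 0 (X 0 * g2) = - q := by rw [cf_X0_mul, u10]
      have w11 : cf 1 1 (X 0 * g2) = cf 1 0 C1 := by rw [cf_X0_mul, u01]
      have w02 : cf 0 2 (X 0 * g2) = 0 := cf_zero_X0_mul 2 g2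
      have z20 : cf 2 0 (g1 - (X 1 + C 0) * g2) = 0 := by
        rw [RE_cf_sub, RE_lin_zero, v20]; ring
      have z11 : cf 1 1 (g1 - (X 1 + C 0) * g2) = 2 * q := by
        rw [RE_cf_sub, RE_lin_succ 1 0, v11, u10]; ring
      have z02 : cf 0 2 (g1 - (X 1 + C 0) * g2) = - cf 1 0 C1 := by
        rw [RE_cf_sub, RE_lin_succ 0 1, v02, u01]; ring
      apply lj_two
      · rw [mem_mI2_iff]
        refine ⟨cf_zero_X0_mul 0 g2, ?_, cf_zero_X0_mul 1 g2⟩
        rw [cf_X0_mul, u00]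
      · rw [mem_mI2_iff]
        refine ⟨?_, ?_, ?_⟩
        · rw [RE_cf_sub, RE_lin_zero, v00]; ring
        · rw [RE_cf_sub, RE_lin_zero, v10]; ring
        · rw [RE_cf_sub, RE_lin_succ 0 0, v01, u00]; ring
      · intro x y h1 h2
        rw [w20, w11, w02] at h1
        rw [z20, z11, z02] at h2
        have k1 : x * (cf 1 0 C1 * y - q * x) = 0 := by linear_combination h1
        have k2 : y * (2 * q * x - cf 1 0 C1 * y) = 0 := by linear_combination h2
        rcases mul_eq_zero.1 k1 with hx | hx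
        · subst hx
          refine ⟨rfl, ?_⟩
          rcases mul_eq_zero.1 k2 with hy | hy
          · exact hy
          · have : cf 1 0 C1 * y = 0 := by linear_combination - hy
            exact (mul_eq_zero.1 this).resolve_left hb
        · rcases mul_eq_zero.1 k2 with hy | hy
          · subst hy
            refine ⟨?_, rfl⟩
            have : q * x = 0 := by linear_combination - hx
            exact (mul_eq_zero.1 this).resolve_left hq
          · have h3 : q * x = 0 := by linear_combination hx + hy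
            have hx0 := (mul_eq_zero.1 h3).resolve_left hq
            subst hx0
            refine ⟨rfl, ?_⟩
            have : cf 1 0 C1 * y = 0 := by linear_combination hx
            exact (mul_eq_zero.1 this).resolve_left hb

end FC76
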