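import Pool.Agent.H76.FC.RE

/-!
# Row RF: nilpotent linear part

A, B vanish at 0, p = cf 1 0 A, q = cf 0 1 A, r = cf 1 0 B, s = cf 0 1 B, p + s = 0, p s - q r = 0, not all zero.  MultLe A B K, IH for K' < K.
Claim: G A B.
STEP 1: q ≠ 0.  blow with e = 0.  bl c A = x A', bl c B = x B'; A1 := x A', C1 := B' - (X 1 + C c) A'.
  By `bl_quot_cf` (k = 1): A'(0,u) = p + q(u+c), B'(0,u) = r + s(u+c):  C1(0,u) = r + s(u+c) - (u+c)(p + q(u+c)) = - q (u + c + p/q)^2
  (uses s = -p, q r = - p^2).  So for c ≠ -p/q: cf 0 0 C1 = - q (c + p/q)^2 ≠ 0: `lj_of_ne`.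
  For c = -p/q: cf 0 0 A' = 0, cf 0 1 A' = q, cf 0 0 C1 = 0, cf 0 1 C1 = 0, cf 0 2 C1 = - q; Noether (nu = 1, A not in m^2 because q ≠ 0):
  1 <= K, MultLe A' B' (K-1), so MultLe A' C1 (K-1) (`MultLe.of_mem`); `res_nilpotent_second`, then toE.
  Infinity: field (sw B, sw A), c = 0: bl 0 (sw B) = x b', bl 0 (sw A) = x a', C1 := a' - (X 1) b' (C 0 = 0), cf 0 0 C1 = cf 0 0 a' = cf 1 0 (sw A) = q ≠ 0.
  (here A1 := bl 0 (sw B).)
STEP 2: q = 0.  Then p^2 = 0 (p s = 0, s = -p), so p = s = 0 and r ≠ 0.  The field (sw B, sw A) has cf 0 1 (sw B) = r ≠ 0 and satisfies all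
  hypotheses (`cf_sw`, `MultLe.sw`), so G (sw B) (sw A) by step 1, and `ResClosed.swap` with `sw_sw` gives G A B.
-/

open MvPolynomial

namespace FC76

theorem RF_sub (i j : ℕ) (f g : P2) : cf i j (f - g) = cf i j f - cf i j g := by
  unfold cf
  rw [coeff_sub]

theorem RF_add (i j : ℕ) (f g : P2) : cf i j (f + g) = cf i j f + cf i j g := by
  unfold cf
  rw [coeff_add]

theorem RF_C (i j : ℕ) (c : ℂ) (f : P2) : cf i j (C c * f) = c * cf i j f := by
  unfold cf
  rw [coeff_C_mul]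

theorem RF_X1 (i j : ℕ) (f : P2) : cf i (j + 1) (X 1 * f) = cf i j f := by
  unfold cf
  rw [Finsupp.single_add, ← add_assoc, add_comm _ (Finsupp.single 1 1), coeff_X_mul]

theorem RF_mul (j : ℕ) (c : ℂ) (f : P2) :
    cf 0 (j + 1) ((X 1 + C c) * f) = cf 0 j f + c * cf 0 (j + 1) f := by
  rw [add_mul, RF_add, RF_X1, RF_C]

theorem RF_step {G GE : P2 → P2 → Prop} (h : ResClosed G GE) (A B : P2) (K : ℕ)
    (hA : eval 0 A = 0) (hB : eval 0 B = 0) (hK : MultLe A B K)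
    (hdet : cf 1 0 A * cf 0 1 B - cf 0 1 A * cf 1 0 B = 0) (htr : cf 1 0 A + cf 0 1 B = 0)
    (hq : cf 0 1 A ≠ 0)
    (IH : ∀ K' < K, ∀ A B : P2, MultLe A B K' → G A B) : G A B := by
  have mA : A ∈ mI ^ 1 := (mem_mI_iff A).2 (by rw [← eval_zero_eq_cf]; exact hA)
  have mB : B ∈ mI ^ 1 := (mem_mI_iff B).2 (by rw [← eval_zero_eq_cf]; exact hB)
  refine h.blow A B 0 ?_ ?_
  · intro c
    obtain ⟨A', hA'⟩ := bl_dvd c A 1 mA
    obtain ⟨B', hB'⟩ := bl_dvd c B 1 mB
    have a0 : cf 0 0 A' = cf 1 0 A + cf 0 1 A * c := by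
      rw [bl_quot_cf c A A' 1 mA hA' 0]
      simp [Finset.sum_range_succ]
    have a1 : cf 0 1 A' = cf 0 1 A := by
      rw [bl_quot_cf c A A' 1 mA hA' 1]
      simp [Finset.sum_range_succ]
    have a2 : cf 0 2 A' = 0 := by
      rw [bl_quot_cf c A A' 1 mA hA' 2]
      simp [Finset.sum_range_succ]
    have b0 : cf 0 0 B' = cf 1 0 B + cf 0 1 B * c := by
      rw [bl_quot_cf c B B' 1 mB hB' 0]
      simp [Finset.sum_range_succ]
    have b1 : cf 0 1 B' = cf 0 1 B := by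
      rw [bl_quot_cf c B B' 1 mB hB' 1]
      simp [Finset.sum_range_succ]
    have b2 : cf 0 2 B' = 0 := by
      rw [bl_quot_cf c B B' 1 mB hB' 2]
      simp [Finset.sum_range_succ]
    refine ⟨X 0 * A', B' - (X 1 + C c) * A', ⟨?_, ?_⟩, ?_⟩
    · rw [hA']; ring
    · rw [hA', hB']; ring
    · have e0 : cf 0 0 (B' - (X 1 + C c) * A') =
          cf 1 0 B + cf 0 1 B * c - c * (cf 1 0 A + cf 0 1 A * c) := by
        rw [← a0, ← b0, ← eval_zero_eq_cf, ← eval_zero_eq_cf, ← eval_zero_eq_cf]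
        simp
      have hs : cf 0 1 B = - cf 1 0 A := by linear_combination htr
      by_cases hc : cf 1 0 A + cf 0 1 A * c = 0
      · -- second blow-up
        have z0 : cf 0 0 (B' - (X 1 + C c) * A') = 0 := by
          rw [e0, hc, mul_zero, sub_zero]
          have h1 : cf 0 1 A * (cf 1 0 B + cf 0 1 B * c) = 0 := by
            linear_combination -hdet + cf 0 1 B * hc
          exact (mul_eq_zero.1 h1).resolve_left hq
        have z1 : cf 0 1 (B' - (X 1 + C c) * A') = 0 := by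
          rw [RF_sub, RF_mul 0, b1, zero_add, a1, a0]
          linear_combination htr - 2 * hc
        have z2 : cf 0 2 (B' - (X 1 + C c) * A') = - cf 0 1 A := by
          rw [RF_sub, RF_mul 1, b2, a1, a2]
          ring
        have hN := noether A B A' B' 1 K c mA mB
          (Or.inl (fun hm => hq ((mem_mI2_iff A).1 hm).2.2)) hA' hB' hK
        have hK1 : 1 ≤ K := by simpa using hN.1
        have hM : MultLe A' (B' - (X 1 + C c) * A') (K - 1) := by
          have h2 : MultLe A' B' (K - 1) := by simpa using hN.2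
          refine h2.of_mem (Ideal.subset_span (by simp)) ?_
          rw [Ideal.mem_span_pair]
          exact ⟨X 1 + C c, 1, by ring⟩
        exact h.toE _ _ (res_nilpotent_second h A' (B' - (X 1 + C c) * A') K (cf 0 1 A) hq
          (by rw [a0, hc]) a1 z0 z1 z2 hK1 hM IH)
      · -- leading jet of order zero
        refine h.toE _ _ (h.lj _ _ (lj_of_ne _ _ (Or.inr ?_)))
        rw [eval_zero_eq_cf, e0]
        intro h0
        apply hc
        have h1 : (cf 1 0 A + cf 0 1 A * c) ^ 2 = 0 := by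
          rw [hs] at h0 hdet
          linear_combination -hdet - cf 0 1 A * h0
        exact pow_eq_zero_iff two_ne_zero |>.1 h1
  · have msA := sw_mem A 1 mA
    have msB := sw_mem B 1 mB
    obtain ⟨a', ha'⟩ := bl_dvd 0 (sw A) 1 msA
    obtain ⟨b', hb'⟩ := bl_dvd 0 (sw B) 1 msB
    refine ⟨X 0 * b', a' - (X 1 + C 0) * b', ⟨?_, ?_⟩, ?_⟩
    · rw [hb']; ring
    · rw [ha', hb']; ring
    · refine h.toE _ _ (h.lj _ _ (lj_of_ne _ _ (Or.inr ?_)))
      have e1 : eval 0 (a' - (X 1 + C 0) * b') = cf 0 0 a' := by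
        rw [← eval_zero_eq_cf]
        simp
      rw [e1, bl_quot_cf 0 (sw A) a' 1 msA ha' 0]
      simpa [Finset.sum_range_succ, cf_sw] using hq

theorem res_nilpotent {G GE : P2 → P2 → Prop} (h : ResClosed G GE) (A B : P2) (K : ℕ)
    (hA : eval 0 A = 0) (hB : eval 0 B = 0) (hK : MultLe A B K)
    (hdet : cf 1 0 A * cf 0 1 B - cf 0 1 A * cf 1 0 B = 0) (htr : cf 1 0 A + cf 0 1 B = 0)
    (hne : A ∉ mI ^ 2 ∨ B ∉ mI ^ 2)
    (IH : ∀ K' < K, ∀ A B : P2, MultLe A B K' → G A B) : G A B := by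
  by_cases hq : cf 0 1 A = 0
  · rw [hq, zero_mul, sub_zero] at hdet
    have hs : cf 0 1 B = - cf 1 0 A := by linear_combination htr
    have hp : cf 1 0 A = 0 := by
      rw [hs] at hdet
      have h1 : cf 1 0 A ^ 2 = 0 := by linear_combination -hdet
      exact pow_eq_zero_iff two_ne_zero |>.1 h1
    have hs0 : cf 0 1 B = 0 := by rw [hs, hp, neg_zero]
    have hA0 : cf 0 0 A = 0 := by rw [← eval_zero_eq_cf]; exact hA
    have hB0 : cf 0 0 B = 0 := by rw [← eval_zero_eq_cf]; exact hB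
    have hr : cf 1 0 B ≠ 0 := by
      intro hr
      rcases hne with h1 | h1
      · exact h1 ((mem_mI2_iff A).2 ⟨hA0, hp, hq⟩)
      · exact h1 ((mem_mI2_iff B).2 ⟨hB0, hr, hs0⟩)
    have h2 : G (sw B) (sw A) := by
      refine RF_step h (sw B) (sw A) K ?_ ?_ hK.sw ?_ ?_ ?_ IH
      · rw [eval_zero_eq_cf, cf_sw]; exact hB0
      · rw [eval_zero_eq_cf, cf_sw]; exact hA0
      · rw [cf_sw, cf_sw, cf_sw, cf_sw, hs0, hp]; simp [hq]
      · rw [cf_sw, cf_sw, hs0, hp, add_zero]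
      · rw [cf_sw]; exact hr
    have h3 := h.swap _ _ h2
    rwa [sw_sw, sw_sw] at h3
  · exact RF_step h A B K hA hB hK hdet htr hq IH

end FC76
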