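import Pool.Agent.H76.FC.RB
import Pool.Agent.H76.FC.RD
import Pool.Agent.H76.FC.RF

/-!
# Row RG: the resolution theorem

Strong induction on K.  Given MultLe A B K.  If A(0) ≠ 0 or B(0) ≠ 0: `lj_of_ne`, h.lj.  Otherwise let nu be as in `exists_order`; nu >= 1
(A, B in m^1 by `mem_mI_iff`, so nu = 0 is impossible).  nu >= 2: `res_order_ge_two`.  nu = 1: A or B not in m^2.  If the determinant of
the linear part is nonzero: `lj_of_det`.  Otherwise trace ≠ 0: `res_saddleNode`; trace = 0: `res_nilpotent`.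
-/

open MvPolynomial

namespace FC76

theorem resolution {G GE : P2 → P2 → Prop} (h : ResClosed G GE) (K : ℕ) (A B : P2) (hK : MultLe A B K) :
    G A B := by
  induction K using Nat.strong_induction_on generalizing A B with
  | _ K ih =>
    by_cases h0 : eval 0 A ≠ 0 ∨ eval 0 B ≠ 0
    · exact h.lj A B (lj_of_ne A B h0)
    push Not at h0
    obtain ⟨hA, hB⟩ := h0
    have hA1 : A ∈ mI ^ 1 := (mem_mI_iff A).2 (by rw [← eval_zero_eq_cf]; exact hA)
    have hB1 : B ∈ mI ^ 1 := (mem_mI_iff B).2 (by rw [← eval_zero_eq_cf]; exact hB)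
    obtain ⟨ν, hν1, hν2, hν3⟩ := exists_order A B K hK
    have IH : ∀ K' < K, ∀ A B : P2, MultLe A B K' → G A B := fun K' hK' A B hAB => ih K' hK' A B hAB
    rcases Nat.lt_or_ge ν 2 with hν | hν
    · interval_cases ν
      · rw [zero_add] at hν3
        exact absurd hν3 (by rintro (h1 | h1); exacts [h1 hA1, h1 hB1])
      · by_cases hdet : cf 1 0 A * cf 0 1 B - cf 0 1 A * cf 1 0 B = 0
        · by_cases htr : cf 1 0 A + cf 0 1 B = 0
          · exact res_nilpotent h A B K hA hB hK hdet htr hν3 IH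
          · exact res_saddleNode h A B K hA hB hK hdet htr
        · exact h.lj A B (lj_of_det A B hA hB hdet)
    · exact res_order_ge_two h A B ν K hν hν1 hν2 hν3 hK IH

end FC76
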